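import Pool.Agent.Zk61.KR.Step

set_option autoImplicit false

/-!
# The weak type estimate for layered families
-/

open MeasureTheory Set Metric
open scoped ENNReal

namespace Pool.Agent.Zk61.KR

open Pool.Agent.Zk61.KP (E tube cnt cnt_fiber measurable_cnt measurableSet_tube nonempty_of_finrank
  near dir_near exists_unit count_node CK CK_pos cnt_le_card finite_level real_bound
  finite_of_bound exists_pow G core_b step_a exists_scale pigeon)

open Classical in
theorem class_size {n b r : ℕ} {K : ℝ} (hK : 1 ≤ K) {ι : Type} (a e : ι → E n) (s : Finset ι)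
    {V : AffineSubspace ℝ (E n)} {δ D : ℝ} (hδ : 0 < δ) (hδ1 : δ ≤ 1)
    (he : ∀ i ∈ s, ‖e i‖ = 1) (hsep : ∀ i ∈ s, ∀ j ∈ s, i ≠ j → δ ≤ ‖e i - e j‖)
    (hLay : Lay K D δ (fun i => tube δ (a i) (e i)) b r V s) :
    (s.card : ℝ) ≤ CK n K / δ ^ (b + r + 1) := by
  have hfr := hLay.finrank
  obtain ⟨u, hu1, hu2, -⟩ := exists_unit (W' := ⊥) (W := V.direction) bot_le
    (by rw [finrank_bot]; omega)
  have h1 := count_node (q := b + r + 1) hfr s a e hδ hδ1 hK he hsep hLay.subset hu2 hu1 hδ1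
  rw [mul_one] at h1
  rw [le_div_iff₀ (by positivity)]
  have h2 : (s.filter fun i => |inner ℝ u (e i)| ≤ 1) = s := by
    apply Finset.filter_true_of_mem
    intro i hi
    refine (abs_real_inner_le_norm _ _).trans ?_
    rw [hu2, he i hi]; norm_num
  rw [h2] at h1
  exact h1

/-- The arithmetic at the end of the induction. -/
theorem arith {t : ℕ} {θ θ1 η Cη C2 C9 W R J : ℝ} (hθ1 : 0 ≤ θ1) (hθ : θ1 < θ)
    (hη : η = (θ - θ1) / (2 * t + 5 + θ1)) (hη1 : η ≤ 1)
    (hCη : 1 ≤ Cη) (hC2 : 1 ≤ C2) (hC9 : 0 < C9) (hW : 1 ≤ W) (hR1 : 1 ≤ R)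
    (hJ1 : 1 ≤ J)
    (hR : R ≤ Cη * (C2 * W) ^ η) (hJ : J ≤ Cη * (8 * R * W) ^ η) :
    R ^ (2 * t + 3) * ((C9 * R * W) ^ θ1 * J) ≤
      ((Cη * C2 ^ η) ^ (2 * t + 3) * ((C9 * (Cη * C2 ^ η)) ^ θ1 *
        (Cη * (8 * (Cη * C2 ^ η)) ^ η))) * W ^ θ := by
  have ht0 : (0 : ℝ) ≤ t := Nat.cast_nonneg t
  have hη0 : 0 < η := by
    rw [hη]
    apply div_pos (by linarith) (by linarith)
  have hW0 : 0 < W := by linarith
  set C4 : ℝ := Cη * C2 ^ η with hC4
  have hC40 : 0 < C4 := by positivity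
  have hR' : R ≤ C4 * W ^ η := by
    refine hR.trans (le_of_eq ?_)
    rw [Real.mul_rpow (by linarith) hW0.le, hC4]; ring
  have hWη : W ^ η ≤ W := by
    calc W ^ η ≤ W ^ (1 : ℝ) := Real.rpow_le_rpow_of_exponent_le hW hη1
      _ = W := Real.rpow_one W
  have hRW1 : R * W ≤ C4 * W ^ (1 + η) := by
    rw [Real.rpow_add hW0, Real.rpow_one]
    calc R * W ≤ (C4 * W ^ η) * W := by gcongr
      _ = _ := by ring
  have hRW : R * W ≤ C4 * W ^ (2 : ℝ) := by
    have h1 : W ^ (2 : ℝ) = W * W := by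
      rw [show (2 : ℝ) = ((2 : ℕ) : ℝ) by norm_num, Real.rpow_natCast]; ring
    rw [h1]
    calc R * W ≤ (C4 * W ^ η) * W := by gcongr
      _ ≤ (C4 * W) * W := by gcongr
      _ = _ := by ring
  have hJ' : J ≤ Cη * (8 * C4) ^ η * W ^ (2 * η) := by
    refine hJ.trans ?_
    calc Cη * (8 * R * W) ^ η ≤ Cη * (8 * C4 * W ^ (2 : ℝ)) ^ η := by
          gcongr Cη * ?_ ^ η
          nlinarith
      _ = _ := by
          rw [Real.mul_rpow (by positivity) (by positivity), ← Real.rpow_mul hW0.le]; ring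
  have hZ' : (C9 * R * W) ^ θ1 ≤ (C9 * C4) ^ θ1 * W ^ ((1 + η) * θ1) := by
    calc (C9 * R * W) ^ θ1 ≤ (C9 * C4 * W ^ (1 + η)) ^ θ1 := by
          apply Real.rpow_le_rpow (by positivity) _ hθ1
          calc C9 * R * W = C9 * (R * W) := by ring
            _ ≤ C9 * (C4 * W ^ (1 + η)) := by gcongr
            _ = _ := by ring
      _ = _ := by
          rw [Real.mul_rpow (by positivity) (by positivity), ← Real.rpow_mul hW0.le]
  have hRp : R ^ (2 * t + 3) ≤ C4 ^ (2 * t + 3) * W ^ (η * (2 * t + 3 : ℕ)) := by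
    calc R ^ (2 * t + 3) ≤ (C4 * W ^ η) ^ (2 * t + 3) := by gcongr
      _ = _ := by
          rw [mul_pow, ← Real.rpow_natCast (W ^ η), ← Real.rpow_mul hW0.le]
  calc R ^ (2 * t + 3) * ((C9 * R * W) ^ θ1 * J)
      ≤ (C4 ^ (2 * t + 3) * W ^ (η * (2 * t + 3 : ℕ))) *
        (((C9 * C4) ^ θ1 * W ^ ((1 + η) * θ1)) * (Cη * (8 * C4) ^ η * W ^ (2 * η))) := by
        gcongr
    _ = (C4 ^ (2 * t + 3) * ((C9 * C4) ^ θ1 * (Cη * (8 * C4) ^ η))) *
        (W ^ (η * (2 * t + 3 : ℕ)) * (W ^ ((1 + η) * θ1) * W ^ (2 * η))) := by ring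
    _ = _ := by
        congr 1
        rw [← Real.rpow_add hW0, ← Real.rpow_add hW0]
        congr 1
        have hne : (2 * (t : ℝ) + 5 + θ1) ≠ 0 := by positivity
        have h1 : η * (2 * t + 5 + θ1) = θ - θ1 := by
          rw [hη, div_mul_cancel₀ _ hne]
        push_cast
        linear_combination h1

/-- **The weak type estimate for layered families**, from the one at the bottom. -/
theorem main {n d : ℕ} (hn : 1 + d = n) {K : ℝ} (hK : 1 ≤ K) (b : ℕ) {c0 : ℝ} (hc0 : 0 ≤ c0)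
    (hbase : ∀ θ : ℝ, c0 < θ → θ ≤ c0 + 1 → ∃ C : ℝ, 0 < C ∧ Bd n d K b 0 θ C) (r : ℕ) :
    ∀ θ : ℝ, c0 < θ → θ ≤ c0 + 1 → ∃ C : ℝ, 0 < C ∧ Bd n d K b r θ C := by
  classical
  induction r with
  | zero => exact hbase
  | succ r ih =>
    intro θ hθ hθ1
    set θ1 : ℝ := (c0 + θ) / 2 with hθ1d
    have h10 : c0 < θ1 := by rw [hθ1d]; linarith
    have h11 : θ1 < θ := by rw [hθ1d]; linarith
    have h12 : 0 ≤ θ1 := by linarith
    obtain ⟨C1, hC1, IH⟩ := ih θ1 h10 (by linarith)
    set t : ℕ := b + r + 1 with ht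
    have ht0 : (0 : ℝ) ≤ t := Nat.cast_nonneg t
    set η : ℝ := (θ - θ1) / (2 * t + 5 + θ1) with hη
    have hη0 : 0 < η := by
      rw [hη]; apply div_pos (by linarith) (by linarith)
    have hη1 : η ≤ 1 := by
      rw [hη, div_le_one (by linarith)]
      linarith
    obtain ⟨Cη, hCη, hpow⟩ := exists_pow hη0
    have hCK := CK_pos (n := n) hK
    have hK0 : 0 < K := by linarith
    set C2 : ℝ := 2 * CK n K + 1 with hC2
    set C9 : ℝ := 8 * K * CK n K with hC9
    set C8 : ℝ := ((Cη * C2 ^ η) ^ (2 * t + 3) * ((C9 * (Cη * C2 ^ η)) ^ θ1 *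
        (Cη * (8 * (Cη * C2 ^ η)) ^ η))) with hC8
    have hC80 : 0 < C8 := by positivity
    refine ⟨4 ^ (t + 2) * (C1 * (2 ^ (d + 4) * (K + 1) * CK n K)) * C8, by positivity, ?_⟩
    intro ι a e s V δ D lam hδ hδ1 hD he hsep hLay hlam hlamN
    obtain ⟨hV, c, hc1, hc2⟩ := hLay
    set T : ι → Set (E n) := fun i => tube δ (a i) (e i) with hTdef
    have hlam0 : 0 < lam := by linarith
    have hN0 : (0 : ℝ) < s.card := by linarith
    have hD0 : 0 < D := by linarith
    set W : ℝ := D ^ (r + 1) * (s.card : ℝ) / lam with hW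
    have hDr : 1 ≤ D ^ (r + 1) := one_le_pow₀ hD
    have hDr' : D ≤ D ^ (r + 1) := le_self_pow₀ hD (by omega)
    have hNl : 1 ≤ (s.card : ℝ) / lam := by rw [le_div_iff₀ hlam0]; linarith
    have hW1 : 1 ≤ W := by
      rw [hW, mul_div_assoc]
      exact one_le_mul_of_one_le_of_one_le hDr hNl
    have hNW : (s.card : ℝ) / lam ≤ W := by
      rw [hW, mul_div_assoc]
      exact le_mul_of_one_le_left (by linarith) hDr
    have hDNW : D * ((s.card : ℝ) / lam) ≤ W := by
      rw [hW, mul_div_assoc]; gcongr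
    -- number of levels
    obtain ⟨R, hR1, hR2, hR3⟩ := hpow (C2 * (D * ((s.card : ℝ) / lam))) (by
      have h1 : 1 ≤ D * ((s.card : ℝ) / lam) := one_le_mul_of_one_le_of_one_le hD hNl
      have h2 : 1 ≤ C2 := by rw [hC2]; linarith
      exact one_le_mul_of_one_le_of_one_le h2 h1)
    have hRr : (1 : ℝ) ≤ R := by exact_mod_cast hR1
    obtain ⟨J, hJ1, hJ2, hJ3⟩ := hpow (8 * R * ((s.card : ℝ) / lam)) (by nlinarith)
    have hJr : (1 : ℝ) ≤ J := by exact_mod_cast hJ1
    set Λ : ℝ := CK n K / δ ^ (b + r + 1) with hΛ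
    have hsz : ∀ l ∈ s.image c, ((s.filter fun i => c i = l).card : ℝ) ≤ Λ := by
      intro l hl
      obtain ⟨V', _, h2⟩ := hc2 l hl
      exact class_size hK a e _ hδ hδ1 (fun i hi => he i (Finset.mem_filter.1 hi).1)
        (fun i hi j hj hij => hsep i (Finset.mem_filter.1 hi).1 j (Finset.mem_filter.1 hj).1 hij) h2
    have hLM : ((s.image c).card : ℝ) * Λ ≤ CK n K * (D * s.card) := by
      calc ((s.image c).card : ℝ) * Λ ≤ (D * δ ^ (b + r + 1) * s.card) * Λ := by gcongr
        _ = CK n K * (D * s.card) := by rw [hΛ]; field_simp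
    have hpig := pigeon T s c hlam0 R hR1 hsz (by
      have h1 : C2 * (D * s.card) ≤ lam * 2 ^ R := by
        have h2 : C2 * (D * s.card) = lam * (C2 * (D * ((s.card : ℝ) / lam))) := by
          field_simp
        rw [h2]; gcongr
      have h3 : 0 ≤ D * (s.card : ℝ) := by positivity
      rw [hC2] at h1
      nlinarith)
    -- one level
    set B : ℝ := (4 * R / lam) ^ (t + 2) * ((δ ^ d * s.card) ^ (t + 1) * D ^ (r + 1) *
      (C1 * (2 ^ (d + 4) * (K + 1) * CK n K) * (C9 * R * W) ^ θ1 * J)) with hB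
    have hlev : ∀ k ∈ Finset.range R, volume.real (G T s c (max 1 (Λ / 2 ^ (k + 1)))
        (lam / (4 * R * max 1 (Λ / 2 ^ (k + 1))))) ^ (t + 1) ≤ B := by
      intro k _
      set m : ℝ := max 1 (Λ / 2 ^ (k + 1)) with hm
      have hm1 : 1 ≤ m := le_max_left _ _
      have hm0 : 0 < m := by linarith
      have hmP : m * (lam / (4 * R * m)) = lam / (4 * R) := by field_simp
      have h1 := level hn hK h12 hC1 IH a e s V hδ hδ1 hD he hsep hV c hc1 hc2 hm1
        (P := lam / (4 * R * m)) (by positivity) J hJ1 (by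
          rw [hmP]
          have h2 : 8 * (R : ℝ) * s.card ≤ 2 ^ J * lam := by
            have h3 : 8 * (R : ℝ) * s.card = (8 * R * ((s.card : ℝ) / lam)) * lam := by
              field_simp
            rw [h3]; gcongr
          rw [div_mul_eq_mul_div, le_div_iff₀ (by positivity)]
          linarith)
      have et1 : b + r + 2 = t + 1 := by omega
      have et2 : b + r + 3 = t + 2 := by omega
      rw [hmP, et1, et2] at h1
      have h2 : 2 * K * CK n K * (D ^ (r + 1) * s.card) / (lam / (4 * R)) = C9 * R * W := by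
        rw [hC9, hW]; field_simp; ring
      rw [h2, ← le_div_iff₀ (by positivity)] at h1
      refine h1.trans (le_of_eq ?_)
      rw [hB, div_pow, div_pow]
      field_simp
    have hfin : ∀ k ∈ Finset.range R, volume (G T s c (max 1 (Λ / 2 ^ (k + 1)))
        (lam / (4 * R * max 1 (Λ / 2 ^ (k + 1))))) ≠ ∞ := by
      intro k _
      set m : ℝ := max 1 (Λ / 2 ^ (k + 1)) with hm
      have hm1 : 1 ≤ m := le_max_left _ _
      have hm0 : 0 < m := by linarith
      have hsub : G T s c m (lam / (4 * R * m)) ⊆ {x | (1 : ℝ) ≤ (cnt T s x : ℝ)} := by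
        intro x hx
        have hx1 : lam / (4 * R * m) ≤ (((s.image c).filter fun l =>
            m ≤ (cnt T (s.filter fun i => c i = l) x : ℝ)).card : ℝ) := hx
        have h2 : 0 < lam / (4 * R * m) := by positivity
        have h3 : 0 < ((s.image c).filter fun l =>
            m ≤ (cnt T (s.filter fun i => c i = l) x : ℝ)).card := by
          exact_mod_cast h2.trans_le hx1
        obtain ⟨l, hl⟩ := Finset.card_pos.1 h3
        have h4 := (Finset.mem_filter.1 hl).2
        have h5 : (cnt T (s.filter fun i => c i = l) x : ℝ) ≤ cnt T s x := by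
          unfold cnt
          norm_cast
          apply Finset.card_le_card
          intro i hi
          simp only [Finset.mem_filter] at hi ⊢
          exact ⟨hi.1.1, hi.2⟩
        show (1 : ℝ) ≤ cnt T s x
        linarith
      exact ((measure_mono hsub).trans_lt
        (finite_level hn a e s hδ.le he one_pos).lt_top).ne
    set v : ℕ → ℝ := fun k => volume.real (G T s c (max 1 (Λ / 2 ^ (k + 1)))
        (lam / (4 * R * max 1 (Λ / 2 ^ (k + 1))))) with hv
    have hsum : volume.real {x : E n | lam ≤ (cnt T s x : ℝ)} ≤ ∑ k ∈ Finset.range R, v k := by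
      refine (measureReal_mono hpig ?_).trans (measureReal_biUnion_finset_le _ _)
      refine ((measure_biUnion_finset_le _ _).trans_lt ?_).ne
      rw [ENNReal.sum_lt_top]
      intro k hk
      exact (hfin k hk).lt_top
    have hpm := pow_sum_div_card_le_sum_pow (s := Finset.range R) (f := v)
      (fun k _ => measureReal_nonneg) t
    rw [Finset.card_range, div_le_iff₀ (by positivity)] at hpm
    have hV1 : volume.real {x : E n | lam ≤ (cnt T s x : ℝ)} ^ (t + 1) ≤ R ^ (t + 1) * B := by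
      calc volume.real {x : E n | lam ≤ (cnt T s x : ℝ)} ^ (t + 1)
          ≤ (∑ k ∈ Finset.range R, v k) ^ (t + 1) := by gcongr
        _ ≤ (∑ k ∈ Finset.range R, v k ^ (t + 1)) * R ^ t := hpm
        _ ≤ (∑ k ∈ Finset.range R, B) * R ^ t := by
            gcongr with k hk
            exact hlev k hk
        _ = R ^ (t + 1) * B := by
            rw [Finset.sum_const, Finset.card_range, nsmul_eq_mul]; ring
    have har := arith (t := t) (C9 := C9) h12 h11 hη hη1 hCη (by rw [hC2]; linarith : 1 ≤ C2)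
      (by rw [hC9]; positivity) hW1 hRr hJr (by
        refine hR3.trans ?_
        gcongr) (by
        refine hJ3.trans ?_
        gcongr)
    have et3 : b + (r + 1) + 1 = t + 1 := by omega
    have et4 : b + (r + 1) + 2 = t + 2 := by omega
    rw [et3, et4]
    calc volume.real {x : E n | lam ≤ (cnt T s x : ℝ)} ^ (t + 1) * lam ^ (t + 2)
        ≤ (R ^ (t + 1) * B) * lam ^ (t + 2) := by gcongr
      _ = 4 ^ (t + 2) * (C1 * (2 ^ (d + 4) * (K + 1) * CK n K)) *
          ((δ ^ d * s.card) ^ (t + 1) * D ^ (r + 1)) *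
          ((R : ℝ) ^ (2 * t + 3) * ((C9 * R * W) ^ θ1 * J)) := by
          rw [hB, div_pow]; field_simp; ring
      _ ≤ 4 ^ (t + 2) * (C1 * (2 ^ (d + 4) * (K + 1) * CK n K)) *
          ((δ ^ d * s.card) ^ (t + 1) * D ^ (r + 1)) * (C8 * W ^ θ) := by gcongr
      _ = _ := by ring

end Pool.Agent.Zk61.KR
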