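import Pool.Agent.Zk61.KR.Proj
import Pool.Agent.Zk61.KR.Induct
import Pool.Agent.Y254.Main

set_option autoImplicit false

/-!
# The bottom of the induction: tubes near one subspace
-/

open MeasureTheory Set Metric
open scoped ENNReal

namespace Pool.Agent.Zk61.KR

open Pool.Agent.Zk61.KP (E tube cnt cnt_fiber measurable_cnt measurableSet_tube nonempty_of_finrank
  near dir_near exists_unit count_node CK CK_pos cnt_le_card finite_level real_bound
  finite_of_bound exists_pow G core_b step_a exists_scale pigeon)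

/-- A weak type estimate in `ℝ^j`. -/
def WeakR (j : ℕ) (p A : ℝ) : Prop :=
  ∀ (ι : Type) (s : Finset ι) (a e : ι → E j) (δ lam : ℝ), 0 < δ → δ < 1 →
    (∀ i ∈ s, ‖e i‖ = 1) → (∀ i ∈ s, ∀ k ∈ s, i ≠ k → δ ≤ ‖e i - e k‖) → 0 < lam →
    volume {x | lam ≤ (cnt (fun i => tube δ (a i) (e i)) s x : ℝ)} ≤
      ENNReal.ofReal (A * (δ ^ (j - 1) * (s.card : ℝ) ^ (p - 1 / ((j : ℝ) - 1))) / lam ^ p)

open Classical in
/-- Wolff's theorem, weak form. -/
theorem wolff_weak {j : ℕ} (hj : 3 ≤ j) {p : ℝ} (hp : 1 + 2 / (j : ℝ) < p) :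
    ∃ A : ℝ, 0 < A ∧ WeakR j p A := by
  have hp0 : 0 < p := by
    have : 0 ≤ 2 / (j : ℝ) := by positivity
    linarith
  obtain ⟨A, hA, h⟩ := Pool.Agent.Y254.wolff hj hp
  refine ⟨A, hA, ?_⟩
  intro ι s a e δ lam hδ hδ1 he hsep hlam
  have h1 := h δ hδ hδ1 (ι := {i // i ∈ s}) (fun i => a i) (fun i => e i) (fun i => he i i.2)
    (fun i k hik => hsep i i.2 k k.2 (fun h => hik (Subtype.ext h)))
  rw [Fintype.card_coe] at h1
  have hmc : ∀ x, Pool.Agent.Y254.mult (fun i : {i // i ∈ s} => Pool.Agent.Y254.tube δ (a i) (e i)) x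
      = ((cnt (fun i => tube δ (a i) (e i)) s x : ℕ) : ℝ≥0∞) := by
    intro x
    unfold Pool.Agent.Y254.mult cnt
    rw [Finset.card_filter]
    push_cast
    rw [← Finset.sum_coe_sort s]
    apply Finset.sum_congr rfl
    intro i _
    rw [Set.indicator_apply]
    rfl
  simp only [hmc] at h1
  have hmeas : Measurable fun x => ((cnt (fun i => tube δ (a i) (e i)) s x : ℕ) : ℝ≥0∞) ^ p := by
    have h2 := (measurable_cnt (fun i => tube δ (a i) (e i))
      (fun i => measurableSet_tube δ (a i) (e i)) s).ennreal_ofReal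
    simp only [ENNReal.ofReal_natCast] at h2
    exact h2.pow_const p
  have hl : 0 < lam ^ p := by positivity
  have h2 := meas_ge_le_lintegral_div (μ := volume) hmeas.aemeasurable
    (ε := ENNReal.ofReal (lam ^ p)) (by simpa using hl) ENNReal.ofReal_ne_top
  refine (measure_mono ?_).trans (h2.trans ?_)
  · intro x hx
    have hx1 : lam ≤ (cnt (fun i => tube δ (a i) (e i)) s x : ℝ) := hx
    show ENNReal.ofReal (lam ^ p) ≤ _
    rw [← ENNReal.ofReal_natCast, ENNReal.ofReal_rpow_of_nonneg (Nat.cast_nonneg _) hp0.le]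
    apply ENNReal.ofReal_le_ofReal
    gcongr
  · rw [ENNReal.ofReal_div_of_pos hl]
    gcongr

open Classical in
theorem cover {n j : ℕ} {ι κ : Type} [Fintype κ] [Nonempty κ] (T : ι → Set (E n)) (s : Finset ι)
    (S : κ → Finset ι) (T' : κ → ι → Set (E j)) (x : E n) (y : E j) {lam Q : ℝ}
    (hQ : (Fintype.card κ : ℝ) = Q) (hlam : lam ≤ (cnt T s x : ℝ))
    (h : ∀ i ∈ s, x ∈ T i → ∃ w, i ∈ S w ∧ y ∈ T' w i) :
    ∃ w, lam / Q ≤ (cnt (T' w) (S w) y : ℝ) := by
  by_contra hcon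
  have hlt : ∀ w, (cnt (T' w) (S w) y : ℝ) < lam / Q := by
    intro w
    by_contra h1
    exact hcon ⟨w, not_lt.1 h1⟩
  have hQ0 : 0 < Q := by
    rw [← hQ]; exact_mod_cast Fintype.card_pos
  have hle : (cnt T s x : ℝ) ≤ ∑ w, (cnt (T' w) (S w) y : ℝ) := by
    have h1 : cnt T s x ≤ ∑ w, cnt (T' w) (S w) y := by
      unfold cnt
      refine (Finset.card_le_card (t := Finset.univ.biUnion fun w =>
        (S w).filter fun i => y ∈ T' w i) ?_).trans Finset.card_biUnion_le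
      intro i hi
      rw [Finset.mem_filter] at hi
      rw [Finset.mem_biUnion]
      obtain ⟨w, h1, h2⟩ := h i hi.1 hi.2
      exact ⟨w, Finset.mem_univ _, Finset.mem_filter.2 ⟨h1, h2⟩⟩
    exact_mod_cast h1
  have hsum : ∑ w, (cnt (T' w) (S w) y : ℝ) < ∑ _w : κ, lam / Q :=
    Finset.sum_lt_sum_of_nonempty Finset.univ_nonempty fun w _ => hlt w
  rw [Finset.sum_const, Finset.card_univ, nsmul_eq_mul, hQ, mul_div_cancel₀ _ hQ0.ne'] at hsum
  linarith

/-- An orthonormal basis adapted to a subspace. -/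
theorem exists_basis {n j m : ℕ} (hjm : j + m = n) {W : Submodule ℝ (E n)}
    (hW : Module.finrank ℝ W = j) :
    ∃ b : OrthonormalBasis (Fin j ⊕ Fin m) ℝ (E n),
      ∀ l : Fin m, ∀ w ∈ W, inner ℝ (b (Sum.inr l)) w = 0 := by
  subst hW
  have horth : Orthonormal ℝ (fun l => (stdOrthonormalBasis ℝ W l : E n)) :=
    (stdOrthonormalBasis ℝ W).orthonormal.comp_linearIsometry W.subtypeₗᵢ
  obtain ⟨b, hb⟩ := Pool.Agent.Zk61.KP.extend
    (fun l => (stdOrthonormalBasis ℝ W l : E n)) horth m (by simpa using hjm)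
  refine ⟨b, fun l w hw => ?_⟩
  have h1 := (stdOrthonormalBasis ℝ W).sum_repr ⟨w, hw⟩
  have h2 : w = ∑ i, ((stdOrthonormalBasis ℝ W).repr ⟨w, hw⟩ i) •
      (stdOrthonormalBasis ℝ W i : E n) := by
    have h3 := congrArg (Submodule.subtype W) h1
    rw [map_sum] at h3
    simpa using h3.symm
  rw [h2, inner_sum]
  apply Finset.sum_eq_zero
  intro i _
  rw [inner_smul_right, ← hb i, b.orthonormal.2 (by simp), mul_zero]

open Classical in
/-- From `ℝ^j` to the neighbourhood of a `j`-dimensional subspace, small `δ`. -/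
theorem transfer_small {n j m : ℕ} (hj : 2 ≤ j) (hjm : j + m = n) {K p A : ℝ} (hK : 1 ≤ K)
    (hp : 1 ≤ p) (hA : 0 < A) (hW : WeakR j p A) :
    ∃ C : ℝ, 0 < C ∧ ∀ (ι : Type) (a e : ι → E n) (s : Finset ι) (V : AffineSubspace ℝ (E n))
      (δ lam : ℝ), 0 < δ → 8 * K * n * δ ≤ 1 → (∀ i ∈ s, ‖e i‖ = 1) →
      (∀ i ∈ s, ∀ k ∈ s, i ≠ k → δ ≤ ‖e i - e k‖) → Module.finrank ℝ V.direction = j →
      (∀ i ∈ s, tube δ (a i) (e i) ⊆ cthickening (K * δ) (V : Set (E n))) → 0 < lam →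
      volume {x | lam ≤ (cnt (fun i => tube δ (a i) (e i)) s x : ℝ)} ≤
        ENNReal.ofReal (C * (δ ^ (n - 1) * (s.card : ℝ) ^ (p - 1 / ((j : ℝ) - 1))) / lam ^ p) := by
  have hn1 : 1 ≤ n := by omega
  obtain ⟨M', hM', hcol⟩ := exists_color n hn1 (M := 8 * n * K + 1) (by positivity)
  haveI : NeZero M' := ⟨hM'.ne'⟩
  have hM'0 : (0 : ℝ) < M' := by exact_mod_cast hM'
  set Q : ℝ := 2 * (M' : ℝ) ^ n with hQ
  have hQ0 : 0 < Q := by positivity
  have hcard : (Fintype.card ((Fin n → ZMod M') × Bool) : ℝ) = Q := by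
    rw [Fintype.card_prod, Fintype.card_fun, ZMod.card, Fintype.card_fin, Fintype.card_bool]
    push_cast
    rw [hQ]; ring
  refine ⟨Q * A * Q ^ p * (2 * K) ^ m, by positivity, ?_⟩
  intro ι a e s V δ lam hδ hδK he hsep hV hT hlam
  have hne : (V : Set (E n)).Nonempty := nonempty_of_finrank (by omega)
  obtain ⟨b, hb⟩ := exists_basis hjm hV
  obtain ⟨x0, hx0⟩ := id hne
  have hbn : ∀ l, ‖b (Sum.inr l)‖ = 1 := fun l => b.norm_eq_one _
  have hnr : (1 : ℝ) ≤ n := by exact_mod_cast hn1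
  have hmn : (m : ℝ) ≤ n := by exact_mod_cast (by omega : m ≤ n)
  have hjr : (2 : ℝ) ≤ j := by exact_mod_cast hj
  have hK0 : 0 < K := by linarith
  have hKδ : δ ≤ K * δ := le_mul_of_one_le_left hδ.le hK
  have hnKδ : K * δ ≤ n * (K * δ) := le_mul_of_one_le_left (by positivity) hnr
  have hmKδ : m * (K * δ) ≤ n * (K * δ) := by gcongr
  have hδK' : n * (K * δ) ≤ 1 / 8 := by linarith
  have hδ8 : δ ≤ 1 / 8 := by linarith
  have hdir : ∀ i ∈ s, ∀ l, |inner ℝ (b (Sum.inr l)) (e i)| ≤ 2 * (K * δ) := fun i hi l =>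
    dir_near (κ := K * δ) (by positivity) hδ.le (hbn l) (hb l) hne (he i hi) (hT i hi)
  have hpe : ∀ i ∈ s, 1 - m * (2 * (K * δ)) ≤ ‖pr b (e i)‖ := by
    intro i hi
    have := le_pr_norm b (by positivity) (hdir i hi)
    rw [he i hi] at this
    linarith
  have hpe1 : ∀ i ∈ s, ‖pr b (e i)‖ ≤ 1 := by
    intro i hi
    have := pr_norm_le b (e i)
    rwa [he i hi] at this
  have hpe0 : ∀ i ∈ s, pr b (e i) ≠ 0 := by
    intro i hi h0
    have := hpe i hi
    rw [h0, norm_zero] at this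
    linarith
  set f : ι → E j := fun i => ‖pr b (e i)‖⁻¹ • pr b (e i) with hf
  have hf1 : ∀ i ∈ s, ‖f i‖ = 1 := by
    intro i hi
    show ‖‖pr b (e i)‖⁻¹ • pr b (e i)‖ = 1
    rw [norm_smul, norm_inv, norm_norm, inv_mul_cancel₀ (norm_ne_zero_iff.2 (hpe0 i hi))]
  have hfe : ∀ i ∈ s, ‖f i - pr b (e i)‖ ≤ m * (2 * (K * δ)) := by
    intro i hi
    have h1 : f i - pr b (e i) = (1 - ‖pr b (e i)‖) • f i := by
      rw [sub_smul, one_smul]
      show _ = f i - ‖pr b (e i)‖ • (‖pr b (e i)‖⁻¹ • pr b (e i))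
      rw [smul_smul, mul_inv_cancel₀ (norm_ne_zero_iff.2 (hpe0 i hi)), one_smul]
    rw [h1, norm_smul, hf1 i hi, mul_one, Real.norm_eq_abs,
      abs_of_nonneg (by linarith [hpe1 i hi])]
    linarith [hpe i hi]
  obtain ⟨col, hcol⟩ := hcol δ hδ
  have hfsep : ∀ i ∈ s, ∀ k ∈ s, i ≠ k → col (e i) = col (e k) → δ ≤ ‖f i - f k‖ := by
    intro i hi k hk hik hc
    have h1 := hcol _ _ hc (hsep i hi k hk hik)
    have h2 : ‖e i - e k‖ ≤ ‖pr b (e i - e k)‖ + m * (4 * (K * δ)) := by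
      apply le_pr_norm b (by positivity)
      intro l
      rw [inner_sub_right]
      refine (abs_sub _ _).trans ?_
      linarith [hdir i hi l, hdir k hk l]
    have h3 : ‖pr b (e i - e k)‖ ≤ ‖f i - f k‖ + ‖f i - pr b (e i)‖ + ‖f k - pr b (e k)‖ := by
      rw [map_sub]
      have h4 : pr b (e i) - pr b (e k) =
          (f i - f k) - (f i - pr b (e i)) + (f k - pr b (e k)) := by abel
      rw [h4]
      refine (norm_add_le _ _).trans ?_
      gcongr
      exact norm_sub_le _ _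
    have h4 := hfe i hi
    have h5 := hfe k hk
    linarith
  set a' : Bool → ι → E j := fun t i =>
    if t = true then pr b (a i) + (1 / 4 : ℝ) • f i else pr b (a i) - (1 / 4 : ℝ) • f i with ha'
  set S : (Fin n → ZMod M') → Finset ι := fun c => s.filter fun i => col (e i) = c with hS
  set B : (Fin n → ZMod M') × Bool → Set (E j) := fun w =>
    {y | lam / Q ≤ (cnt (fun i => tube δ (a' w.2 i) (f i)) (S w.1) y : ℝ)} with hB
  set lo : Fin m → ℝ := fun l => inner ℝ (b (Sum.inr l)) x0 - K * δ with hlo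
  set hi' : Fin m → ℝ := fun l => inner ℝ (b (Sum.inr l)) x0 + K * δ with hhi
  set T : ι → Set (E n) := fun i => tube δ (a i) (e i) with hTdef
  have hsub : {x | lam ≤ (cnt T s x : ℝ)} ⊆
      ⋃ w ∈ (Finset.univ : Finset ((Fin n → ZMod M') × Bool)),
        {x : E n | pr b x ∈ B w ∧ ∀ l, inner ℝ (b (Sum.inr l)) x ∈ Icc (lo l) (hi' l)} := by
    intro x hx
    have hx1 : lam ≤ (cnt T s x : ℝ) := hx
    have hpos : 0 < cnt T s x := by
      have : (0 : ℝ) < cnt T s x := lt_of_lt_of_le hlam hx1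
      exact_mod_cast this
    unfold cnt at hpos
    obtain ⟨i0, hi0⟩ := Finset.card_pos.1 hpos
    rw [Finset.mem_filter] at hi0
    have hslab : ∀ l, inner ℝ (b (Sum.inr l)) x ∈ Icc (lo l) (hi' l) := by
      intro l
      have h1 := abs_le.1 (near (κ := K * δ) (by positivity) (hbn l) (hb l) hx0
        (hT i0 hi0.1 hi0.2))
      exact ⟨by rw [hlo]; linarith [h1.1], by rw [hhi]; linarith [h1.2]⟩
    obtain ⟨w, hw⟩ := cover T s (κ := (Fin n → ZMod M') × Bool) (fun w => S w.1)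
      (fun w i => tube δ (a' w.2 i) (f i)) x (pr b x) hcard hx1 (by
        intro i hi hxi
        rcases pr_tube b (by linarith) (he i hi) (hpe0 i hi) hxi with h | h
        · exact ⟨(col (e i), true), Finset.mem_filter.2 ⟨hi, rfl⟩, h⟩
        · exact ⟨(col (e i), false), Finset.mem_filter.2 ⟨hi, rfl⟩, h⟩)
    exact mem_iUnion₂.2 ⟨w, Finset.mem_univ _, hw, hslab⟩
  have hexp : 0 ≤ p - 1 / ((j : ℝ) - 1) := by
    have h1 : 1 / ((j : ℝ) - 1) ≤ 1 := by
      rw [div_le_one (by linarith)]; linarith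
    linarith
  set X : ℝ := (s.card : ℝ) ^ (p - 1 / ((j : ℝ) - 1)) with hX
  have hX0 : 0 ≤ X := by positivity
  have hmeas : ∀ w, volume {x : E n | pr b x ∈ B w ∧
      ∀ l, inner ℝ (b (Sum.inr l)) x ∈ Icc (lo l) (hi' l)} ≤
      ENNReal.ofReal (A * (δ ^ (j - 1) * X) / (lam / Q) ^ p * (2 * K * δ) ^ m) := by
    intro w
    rw [vol_prod b (measurableSet_le measurable_const
      (measurable_cnt _ (fun i => measurableSet_tube _ _ _) _)) lo hi']
    have e1 : ∀ l, hi' l - lo l = 2 * K * δ := by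
      intro l
      rw [hlo, hhi]; ring
    simp only [e1, Finset.prod_const, Finset.card_univ, Fintype.card_fin]
    have h5 : volume (B w) ≤ ENNReal.ofReal (A * (δ ^ (j - 1) * X) / (lam / Q) ^ p) := by
      refine (hW ι (S w.1) (a' w.2) f δ (lam / Q) hδ (by linarith)
        (fun i hi => hf1 i (Finset.mem_filter.1 hi).1)
        (fun i hi k hk hik => hfsep i (Finset.mem_filter.1 hi).1 k (Finset.mem_filter.1 hk).1 hik
          ((Finset.mem_filter.1 hi).2.trans (Finset.mem_filter.1 hk).2.symm))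
        (by positivity)).trans ?_
      apply ENNReal.ofReal_le_ofReal
      rw [hX]
      gcongr
      exact Finset.filter_subset _ _
    calc volume (B w) * ENNReal.ofReal (2 * K * δ) ^ m
        ≤ ENNReal.ofReal (A * (δ ^ (j - 1) * X) / (lam / Q) ^ p) *
          ENNReal.ofReal (2 * K * δ) ^ m := by gcongr
      _ = _ := by
          rw [← ENNReal.ofReal_pow (by positivity), ← ENNReal.ofReal_mul (by positivity)]
  refine (measure_mono hsub).trans ((measure_biUnion_finset_le _ _).trans ?_)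
  refine (Finset.sum_le_sum fun w _ => hmeas w).trans ?_
  rw [Finset.sum_const, Finset.card_univ, nsmul_eq_mul, ← ENNReal.ofReal_natCast, hcard,
    ← ENNReal.ofReal_mul hQ0.le]
  apply ENNReal.ofReal_le_ofReal
  apply le_of_eq
  rw [Real.div_rpow hlam.le hQ0.le, mul_pow]
  have e2 : δ ^ (n - 1) = δ ^ (j - 1) * δ ^ m := by
    rw [← pow_add]; congr 1; omega
  rw [e2]
  have : 0 < lam ^ p := by positivity
  have : 0 < Q ^ p := by positivity
  field_simp

open Classical in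
/-- From `ℝ^j` to the neighbourhood of a `j`-dimensional subspace. -/
theorem transfer {n j m : ℕ} (hj : 2 ≤ j) (hjm : j + m = n) {K p A : ℝ} (hK : 1 ≤ K)
    (hp : 1 ≤ p) (hA : 0 < A) (hW : WeakR j p A) :
    ∃ C : ℝ, 0 < C ∧ ∀ (ι : Type) (a e : ι → E n) (s : Finset ι) (V : AffineSubspace ℝ (E n))
      (δ lam : ℝ), 0 < δ → δ ≤ 1 → (∀ i ∈ s, ‖e i‖ = 1) →
      (∀ i ∈ s, ∀ k ∈ s, i ≠ k → δ ≤ ‖e i - e k‖) → Module.finrank ℝ V.direction = j →
      (∀ i ∈ s, tube δ (a i) (e i) ⊆ cthickening (K * δ) (V : Set (E n))) → 1 ≤ lam →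
      lam ≤ s.card →
      volume.real {x | lam ≤ (cnt (fun i => tube δ (a i) (e i)) s x : ℝ)} * lam ^ p ≤
        C * (δ ^ (n - 1) * (s.card : ℝ) ^ (p - 1 / ((j : ℝ) - 1))) := by
  obtain ⟨C1, hC1, h1⟩ := transfer_small hj hjm hK hp hA hW
  have hn1 : 1 ≤ n := by omega
  have hnr : (1 : ℝ) ≤ n := by exact_mod_cast hn1
  have hjr : (2 : ℝ) ≤ j := by exact_mod_cast hj
  have hK0 : 0 < K := by linarith
  have hCK := CK_pos (n := n) hK
  set N0 : ℝ := CK n K * (8 * K * n) ^ (j - 1) with hN0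
  have hN00 : 0 < N0 := by positivity
  refine ⟨C1 + 2 ^ (n - 1) * N0 ^ 2, by positivity, ?_⟩
  intro ι a e s V δ lam hδ hδ1 he hsep hV hT hlam hlamN
  have hlam0 : 0 < lam := by linarith
  have hs1 : (1 : ℝ) ≤ s.card := by linarith
  have hs0 : (0 : ℝ) < s.card := by linarith
  have hl : 0 < lam ^ p := by positivity
  set X : ℝ := (s.card : ℝ) ^ (p - 1 / ((j : ℝ) - 1)) with hX
  have hX0 : 0 < X := by positivity
  rcases le_or_gt (8 * K * n * δ) 1 with hsm | hlg
  · have h2 := h1 ι a e s V δ lam hδ hsm he hsep hV hT hlam0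
    have h3 := ENNReal.toReal_mono ENNReal.ofReal_ne_top h2
    rw [ENNReal.toReal_ofReal (by positivity)] at h3
    have h4 : volume.real {x | lam ≤ (cnt (fun i => tube δ (a i) (e i)) s x : ℝ)} * lam ^ p ≤
        C1 * (δ ^ (n - 1) * X) := by
      rw [← le_div_iff₀ hl]
      exact h3
    refine h4.trans ?_
    gcongr
    have : 0 < 2 ^ (n - 1) * N0 ^ 2 := by positivity
    linarith
  · -- few tubes
    have hδinv : 1 / δ ≤ 8 * K * n := by
      rw [div_le_iff₀ hδ]; linarith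
    have hcard : (s.card : ℝ) ≤ N0 := by
      obtain ⟨u, hu1, hu2, -⟩ := exists_unit (W' := ⊥) (W := V.direction) bot_le
        (by rw [finrank_bot]; omega)
      have h2 := count_node (q := j - 1) (by omega) s a e hδ hδ1 hK he hsep hT hu2 hu1 hδ1
      have h3 : (s.filter fun i => |inner ℝ u (e i)| ≤ 1) = s := by
        apply Finset.filter_true_of_mem
        intro i hi
        refine (abs_real_inner_le_norm _ _).trans ?_
        rw [hu2, he i hi]; norm_num
      rw [h3, mul_one, ← le_div_iff₀ (by positivity)] at h2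
      refine h2.trans ?_
      rw [hN0, div_eq_mul_one_div, ← one_div_pow]
      unfold CK
      gcongr
    have hv : volume.real {x | lam ≤ (cnt (fun i => tube δ (a i) (e i)) s x : ℝ)} ≤
        s.card * (2 * δ) ^ (n - 1) := by
      have hsub : {x | lam ≤ (cnt (fun i => tube δ (a i) (e i)) s x : ℝ)} ⊆
          ⋃ i ∈ s, tube δ (a i) (e i) := by
        intro x hx
        have hx1 : lam ≤ (cnt (fun i => tube δ (a i) (e i)) s x : ℝ) := hx
        have h1 : 0 < cnt (fun i => tube δ (a i) (e i)) s x := by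
          have : (0 : ℝ) < (cnt (fun i => tube δ (a i) (e i)) s x : ℝ) := by linarith
          exact_mod_cast this
        unfold cnt at h1
        obtain ⟨i, hi⟩ := Finset.card_pos.1 h1
        rw [Finset.mem_filter] at hi
        simp only [mem_iUnion]
        exact ⟨i, hi.1, hi.2⟩
      have h2 : volume {x | lam ≤ (cnt (fun i => tube δ (a i) (e i)) s x : ℝ)} ≤
          ENNReal.ofReal (s.card * (2 * δ) ^ (n - 1)) := by
        refine (measure_mono hsub).trans ((measure_biUnion_finset_le _ _).trans ?_)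
        refine (Finset.sum_le_sum fun i hi => Pool.Agent.Zk61.KP.vol_tube (m := n - 1)
          (by omega) hδ.le (he i hi)).trans ?_
        rw [Finset.sum_const, nsmul_eq_mul, ← ENNReal.ofReal_natCast,
          ← ENNReal.ofReal_mul hs0.le]
      have h3 := ENNReal.toReal_mono ENNReal.ofReal_ne_top h2
      rwa [ENNReal.toReal_ofReal (by positivity)] at h3
    have hpow : (s.card : ℝ) * (s.card : ℝ) ^ p ≤ N0 ^ 2 * X := by
      have h2 : (s.card : ℝ) * (s.card : ℝ) ^ p =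
          (s.card : ℝ) ^ (1 + 1 / ((j : ℝ) - 1)) * X := by
        rw [hX, ← Real.rpow_add hs0]
        nth_rewrite 1 [← Real.rpow_one (s.card : ℝ)]
        rw [← Real.rpow_add hs0]
        congr 1
        ring
      rw [h2]
      gcongr
      have h3 : 1 + 1 / ((j : ℝ) - 1) ≤ 2 := by
        have : 1 / ((j : ℝ) - 1) ≤ 1 := by
          rw [div_le_one (by linarith)]; linarith
        linarith
      calc (s.card : ℝ) ^ (1 + 1 / ((j : ℝ) - 1)) ≤ (s.card : ℝ) ^ (2 : ℝ) :=
            Real.rpow_le_rpow_of_exponent_le hs1 h3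
        _ = (s.card : ℝ) ^ 2 := by
            rw [show (2 : ℝ) = ((2 : ℕ) : ℝ) by norm_num, Real.rpow_natCast]
        _ ≤ N0 ^ 2 := by gcongr
    calc volume.real {x | lam ≤ (cnt (fun i => tube δ (a i) (e i)) s x : ℝ)} * lam ^ p
        ≤ (s.card * (2 * δ) ^ (n - 1)) * (s.card : ℝ) ^ p := by gcongr
      _ = 2 ^ (n - 1) * δ ^ (n - 1) * ((s.card : ℝ) * (s.card : ℝ) ^ p) := by
          rw [mul_pow]; ring
      _ ≤ 2 ^ (n - 1) * δ ^ (n - 1) * (N0 ^ 2 * X) := by gcongr
      _ = (2 ^ (n - 1) * N0 ^ 2) * (δ ^ (n - 1) * X) := by ring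
      _ ≤ _ := by
          gcongr
          linarith

/-- **The bottom of the induction.** -/
theorem base_bd {n d b r : ℕ} (hn : 1 + d = n) (hr : b + r + 2 = n) {K : ℝ} (hK : 1 ≤ K) :
    ∀ θ : ℝ, (b : ℝ) / (b + 2) < θ → θ ≤ (b : ℝ) / (b + 2) + 1 →
      ∃ C : ℝ, 0 < C ∧ Bd n d K b 0 θ C := by
  classical
  intro θ hθ _
  rcases Nat.eq_zero_or_pos b with hb | hb
  · subst hb
    have hθ0 : 0 < θ := by simpa using hθ
    obtain ⟨C, hC, h⟩ := Pool.Agent.Zk61.KP.base hn hK hθ0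
    refine ⟨C, hC, ?_⟩
    intro ι a e s V δ D lam hδ hδ1 hD he hsep hLay hlam hlamN
    have h1 := h ι a e s V δ D lam hδ hδ1 he hsep ⟨hLay.1, hLay.2⟩ hlam hlamN
    simpa using h1
  · have hb1 : (1 : ℝ) ≤ b := by exact_mod_cast hb
    have hp : 1 + 2 / ((b + 2 : ℕ) : ℝ) < 1 + (1 + θ) / (b + 1) := by
      rw [div_lt_iff₀ (by positivity)] at hθ
      push_cast
      have : 2 / ((b : ℝ) + 2) < (1 + θ) / (b + 1) := by
        rw [div_lt_div_iff₀ (by positivity) (by positivity)]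
        linarith
      linarith
    have hθ0 : 0 < θ := lt_of_le_of_lt (by positivity) hθ
    obtain ⟨A, hA, hW⟩ := wolff_weak (j := b + 2) (by omega) hp
    obtain ⟨C, hC, h⟩ := transfer (n := n) (j := b + 2) (m := r) (by omega) (by omega) hK
      (by
        have : 0 < (1 + θ) / ((b : ℝ) + 1) := by positivity
        linarith) hA hW
    refine ⟨C ^ (b + 1), by positivity, ?_⟩
    intro ι a e s V δ D lam hδ hδ1 hD he hsep hLay hlam hlamN
    have h1 := h ι a e s V δ lam hδ hδ1 he hsep hLay.1 hLay.2 hlam hlamN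
    have hlam0 : 0 < lam := by linarith
    have hN0 : (0 : ℝ) < s.card := by linarith
    have h2 := pow_le_pow_left₀ (by positivity) h1 (b + 1)
    have hpr : ∀ x : ℝ, 0 < x → ∀ y : ℝ, (x ^ y) ^ (b + 1) = x ^ (y * (b + 1)) := by
      intro x hx y
      rw [← Real.rpow_natCast, ← Real.rpow_mul hx.le]
      push_cast
      rfl
    have hb0 : (b : ℝ) + 1 ≠ 0 := by positivity
    rw [mul_pow, mul_pow, mul_pow, hpr _ hlam0, hpr _ hN0] at h2
    have e1 : (1 + (1 + θ) / ((b : ℝ) + 1)) * (b + 1) = ((b + 2 : ℕ) : ℝ) + θ := by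
      push_cast; field_simp; ring
    have e2 : (1 + (1 + θ) / ((b : ℝ) + 1) - 1 / (((b + 2 : ℕ) : ℝ) - 1)) * (b + 1) =
        ((b + 1 : ℕ) : ℝ) + θ := by
      push_cast
      have : (b : ℝ) + 2 - 1 = b + 1 := by ring
      rw [this]
      field_simp; ring
    rw [e1, e2, Real.rpow_add hlam0, Real.rpow_add hN0, Real.rpow_natCast,
      Real.rpow_natCast] at h2
    have e3 : n - 1 = d := by omega
    rw [e3] at h2
    show volume.real {x | lam ≤ (cnt (fun i => tube δ (a i) (e i)) s x : ℝ)} ^ (b + 0 + 1) *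
      lam ^ (b + 0 + 2) ≤ C ^ (b + 1) * (δ ^ d * s.card) ^ (b + 0 + 1) * D ^ 0 *
        (D ^ 0 * (s.card : ℝ) / lam) ^ θ
    rw [add_zero, pow_zero, mul_one, one_mul, Real.div_rpow hN0.le hlam0.le]
    have hlθ : 0 < lam ^ θ := by positivity
    rw [← mul_div_assoc, le_div_iff₀ hlθ]
    calc _ = volume.real {x | lam ≤ (cnt (fun i => tube δ (a i) (e i)) s x : ℝ)} ^ (b + 1) *
        (lam ^ (b + 2) * lam ^ θ) := by ring
      _ ≤ _ := h2
      _ = _ := by ring

end Pool.Agent.Zk61.KR
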