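import Pool.Agent.Zk61.KR.Base
import Pool.Agent.Zk61.KP.Lq

set_option autoImplicit false

/-!
# The strong type estimate for layered families
-/

open MeasureTheory Set Metric
open scoped ENNReal

namespace Pool.Agent.Zk61.KR

open Pool.Agent.Zk61.KP (E tube cnt cnt_fiber measurable_cnt measurableSet_tube nonempty_of_finrank
  near dir_near exists_unit count_node CK CK_pos cnt_le_card finite_level real_bound
  finite_of_bound exists_pow G core_b step_a exists_scale pigeon)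

open Classical in
/-- The strong type estimate. -/
theorem main_q {b r t : ℕ} (hr : b + r + 1 = t) {q τ K : ℝ}
    (hq : 1 + (1 + (b : ℝ) / (b + 2)) / t < q)
    (hτ : r * (1 + (b : ℝ) / (b + 2)) / t < τ * q) (hK : 1 ≤ K) :
    ∃ C : ℝ, 0 < C ∧ ∀ δ : ℝ, 0 < δ → δ ≤ 1 → ∀ D : ℝ, 1 ≤ D → ∀ (ι : Type) (s : Finset ι)
      (a e : ι → E (1 + t)), (∀ i ∈ s, ‖e i‖ = 1) →
      (∀ i ∈ s, ∀ j ∈ s, i ≠ j → δ ≤ ‖e i - e j‖) →
      Lay K D δ (fun i => tube δ (a i) (e i)) b r ⊤ s →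
      ∫⁻ x, ENNReal.ofReal ((cnt (fun i => tube δ (a i) (e i)) s x : ℝ) ^ q) ≤
        ENNReal.ofReal (C * D ^ (τ * q) * δ ^ t * (s.card : ℝ) ^ (q - 1 / (t : ℝ))) := by
  set c0 : ℝ := (b : ℝ) / (b + 2) with hc0
  have hc00 : 0 ≤ c0 := by positivity
  have ht1 : (1 : ℝ) ≤ t := by exact_mod_cast (by omega : 1 ≤ t)
  have ht0 : (0 : ℝ) < t := by linarith
  have htn : t ≠ 0 := by omega
  have hrt : (r : ℝ) ≤ t := by exact_mod_cast (by omega : r ≤ t)
  have hq0 : 0 < q := lt_trans (by positivity) hq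
  set g0 : ℝ := q - 1 - (1 + c0) / t with hg0
  have hg0' : 0 < g0 := by rw [hg0]; linarith
  set h0 : ℝ := τ * q - r * (1 + c0) / t with hh0
  have hh0' : 0 < h0 := by rw [hh0]; linarith
  set ε : ℝ := min 1 (min (g0 / 2) h0) with hε
  have hε0 : 0 < ε := lt_min one_pos (lt_min (by positivity) hh0')
  have hε1 : ε ≤ 1 := min_le_left _ _
  have hεg : ε ≤ g0 / 2 := (min_le_right _ _).trans (min_le_left _ _)
  have hεh : ε ≤ h0 := (min_le_right _ _).trans (min_le_right _ _)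
  set θ : ℝ := c0 + ε with hθ
  have hθ0 : 0 < θ := by positivity
  obtain ⟨C, hC, hB⟩ := main (n := 1 + t) (d := t) rfl hK b hc00
    (base_bd (r := r) rfl (by omega) hK) r θ (by linarith) (by linarith)
  set γ : ℝ := g0 - ε / t with hγ
  have hεt : ε / t ≤ ε := div_le_self hε0.le ht1
  have hγ0 : 0 < γ := by rw [hγ]; linarith
  set C' : ℝ := C ^ ((1 : ℝ) / t) with hC'
  have hC'0 : 0 < C' := by positivity
  refine ⟨q * (C' / γ), by positivity, ?_⟩
  intro δ hδ hδ1 D hD ι s a e he hsep hLay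
  set T : ι → Set (E (1 + t)) := fun i => tube δ (a i) (e i) with hT
  have hTm : ∀ i, MeasurableSet (T i) := fun i => measurableSet_tube _ _ _
  have hD0 : 0 < D := by linarith
  rcases s.eq_empty_or_nonempty with hs | hs
  · subst hs
    have h1 : ∀ x, (cnt T ∅ x : ℝ) = 0 := by
      intro x; unfold cnt; simp
    simp only [h1, Real.zero_rpow hq0.ne']
    simp
  have hN1 : (1 : ℝ) ≤ s.card := by exact_mod_cast hs.card_pos
  have hN0 : (0 : ℝ) < s.card := by linarith
  set A : ℝ := C' * (δ ^ t * s.card) * D ^ ((r : ℝ) / t) *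
    (D ^ r * (s.card : ℝ)) ^ (θ / t) with hA
  have hA0 : 0 ≤ A := by positivity
  have et1 : b + r + 1 = t := hr
  have et2 : b + r + 2 = t + 1 := by omega
  -- weak type, `1 ≤ x`
  have hw1 : ∀ x : ℝ, 1 ≤ x → x ≤ s.card →
      volume.real {y | x ≤ (cnt T s y : ℝ)} ≤ A * x ^ (γ - q) := by
    intro x hx hxN
    have hx0 : 0 < x := by linarith
    have h1 := hB ι a e s ⊤ δ D x hδ hδ1 hD he hsep hLay hx hxN
    rw [et1, et2] at h1
    have h2 : (A * x ^ (γ - q)) ^ t = C * (δ ^ t * s.card) ^ t * D ^ r *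
        (D ^ r * (s.card : ℝ) / x) ^ θ / x ^ (t + 1) := by
      have hp : ∀ z : ℝ, 0 ≤ z → ∀ y : ℝ, (z ^ y) ^ t = z ^ (y * t) := by
        intro z hz y
        rw [← Real.rpow_natCast, ← Real.rpow_mul hz]
      rw [hA, hC']
      rw [mul_pow, mul_pow, mul_pow, mul_pow, hp C hC.le, hp D hD0.le, hp _ (by positivity),
        hp x hx0.le]
      have e6 : (1 : ℝ) / t * t = 1 := by field_simp
      have e7 : (r : ℝ) / t * t = r := by field_simp
      have e8 : θ / t * t = θ := by field_simp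
      have e9 : (γ - q) * t = -(θ + ((t + 1 : ℕ) : ℝ)) := by
        rw [hγ, hg0, hθ]; push_cast; field_simp; ring
      rw [e6, e7, e8, e9, Real.rpow_one, Real.rpow_natCast, Real.rpow_neg hx0.le,
        Real.rpow_add hx0, Real.rpow_natCast, Real.div_rpow (by positivity) hx0.le]
      field_simp
    rw [← le_div_iff₀ (by positivity), ← h2] at h1
    exact le_of_pow_le_pow_left₀ htn (by positivity) h1
  have hfin : volume {x | (1 : ℝ) ≤ (cnt T s x : ℝ)} ≠ ∞ :=
    finite_level (d := t) rfl a e s hδ.le he one_pos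
  have hw : ∀ x : ℝ, 0 < x → x ≤ s.card →
      volume {y | x ≤ (cnt T s y : ℝ)} ≤ ENNReal.ofReal (A * x ^ (γ - q)) := by
    intro x hx hxN
    rcases le_or_gt 1 x with h | h
    · have h1 : volume {y | x ≤ (cnt T s y : ℝ)} ≠ ∞ :=
        finite_level (d := t) rfl a e s hδ.le he hx
      rw [← ENNReal.ofReal_toReal h1]
      exact ENNReal.ofReal_le_ofReal (hw1 x h hxN)
    · have h1 : {y | x ≤ (cnt T s y : ℝ)} = {y | (1 : ℝ) ≤ (cnt T s y : ℝ)} := by
        ext y
        show x ≤ (cnt T s y : ℝ) ↔ (1 : ℝ) ≤ (cnt T s y : ℝ)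
        constructor
        · intro h2
          have h3 : (0 : ℝ) < (cnt T s y : ℝ) := by linarith
          have h4 : 0 < cnt T s y := by exact_mod_cast h3
          exact_mod_cast h4
        · intro h2; linarith
      rw [h1, ← ENNReal.ofReal_toReal hfin]
      apply ENNReal.ofReal_le_ofReal
      refine (hw1 1 le_rfl hN1).trans ?_
      rw [Real.one_rpow]
      gcongr
      rw [← Real.one_rpow (γ - q)]
      apply Real.rpow_le_rpow_of_nonpos hx h.le
      rw [hγ, hg0]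
      have h5 : 0 < ε / (t : ℝ) := by positivity
      have h6 : 0 < (1 + c0) / (t : ℝ) := by positivity
      linarith
  have h1 := Pool.Agent.Zk61.KP.strong (measurable_cnt T hTm s) (fun x => Nat.cast_nonneg _)
    (N := s.card) hN0.le hq0 hγ0 hA0 (fun x => by exact_mod_cast cnt_le_card T s x) hw
  refine h1.trans (ENNReal.ofReal_le_ofReal ?_)
  -- final arithmetic
  have h2 : A * ((s.card : ℝ) ^ γ / γ) = C' / γ * δ ^ t *
      (D ^ ((r : ℝ) / t) * (D ^ r) ^ (θ / t)) *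
      ((s.card : ℝ) * (s.card : ℝ) ^ (θ / t) * (s.card : ℝ) ^ γ) := by
    rw [hA, Real.mul_rpow (by positivity) hN0.le]; ring
  have h3 : (s.card : ℝ) * (s.card : ℝ) ^ (θ / t) * (s.card : ℝ) ^ γ =
      (s.card : ℝ) ^ (q - 1 / (t : ℝ)) := by
    nth_rewrite 1 [← Real.rpow_one (s.card : ℝ)]
    rw [← Real.rpow_add hN0, ← Real.rpow_add hN0]
    congr 1
    rw [hγ, hg0, hθ]
    field_simp
    ring
  have h4 : D ^ ((r : ℝ) / t) * (D ^ r) ^ (θ / t) ≤ D ^ (τ * q) := by
    rw [← Real.rpow_natCast D r, ← Real.rpow_mul hD0.le, ← Real.rpow_add hD0]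
    apply Real.rpow_le_rpow_of_exponent_le hD
    have h5 : (r : ℝ) * ε / t ≤ ε := by
      rw [div_le_iff₀ ht0, mul_comm]
      gcongr
    have h6 : (r : ℝ) / t + r * (θ / t) = r * (1 + c0) / t + r * ε / t := by
      rw [hθ]; field_simp; ring
    rw [h6]
    have h7 : τ * q = h0 + r * (1 + c0) / t := by rw [hh0]; ring
    linarith
  rw [h2, h3]
  calc q * (C' / γ * δ ^ t * (D ^ ((r : ℝ) / t) * (D ^ r) ^ (θ / t)) *
        (s.card : ℝ) ^ (q - 1 / (t : ℝ)))
      ≤ q * (C' / γ * δ ^ t * (D ^ (τ * q)) * (s.card : ℝ) ^ (q - 1 / (t : ℝ))) := by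
        gcongr
    _ = _ := by ring

end Pool.Agent.Zk61.KR
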