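import Pool.Agent.Zk61.KP.Step

set_option autoImplicit false

/-!
# Layered families over subspaces of dimension `b + 2`
-/

open MeasureTheory Set Metric
open scoped ENNReal

namespace Pool.Agent.Zk61.KR

open Pool.Agent.Zk61.KP (E tube cnt cnt_fiber measurable_cnt measurableSet_tube nonempty_of_finrank
  near dir_near exists_unit count_node CK CK_pos cnt_le_card finite_level real_bound
  finite_of_bound exists_pow G core_b step_a exists_scale pigeon)

open Classical in
/-- Layered families of tubes: `Lay K D δ T b 0 V s` says that `V` has dimension `b + 2` and its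
`K δ`-neighbourhood contains the tubes; `Lay K D δ T b (r + 1) V s` says that `V` has dimension
`b + r + 3` and that `s` is divided into at most `D δ ^ (b + r + 1) #s` classes, each of which is a
layered family in a subspace of `V` of dimension `b + r + 2`. -/
def Lay {n : ℕ} {ι : Type} (K D δ : ℝ) (T : ι → Set (E n)) (b : ℕ) :
    ℕ → AffineSubspace ℝ (E n) → Finset ι → Prop
  | 0, V, s => Module.finrank ℝ V.direction = b + 2 ∧
      ∀ i ∈ s, T i ⊆ cthickening (K * δ) (V : Set (E n))
  | (r + 1), V, s => Module.finrank ℝ V.direction = b + r + 3 ∧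
      ∃ c : ι → ℕ, ((s.image c).card : ℝ) ≤ D * δ ^ (b + r + 1) * s.card ∧
        ∀ l ∈ s.image c, ∃ V' ≤ V, Lay K D δ T b r V' (s.filter fun i => c i = l)

theorem Lay.finrank {n : ℕ} {ι : Type} {K D δ : ℝ} {T : ι → Set (E n)} {b r : ℕ}
    {V : AffineSubspace ℝ (E n)} {s : Finset ι} (h : Lay K D δ T b r V s) :
    Module.finrank ℝ V.direction = b + r + 2 := by
  cases r with
  | zero => exact h.1
  | succ r => exact h.1

theorem Lay.subset {n : ℕ} {ι : Type} {K D δ : ℝ} {T : ι → Set (E n)} {b r : ℕ} :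
    ∀ {V : AffineSubspace ℝ (E n)} {s : Finset ι}, Lay K D δ T b r V s →
    ∀ i ∈ s, T i ⊆ cthickening (K * δ) (V : Set (E n)) := by
  classical
  induction r with
  | zero => intro V s h; exact h.2
  | succ r ih =>
    intro V s h i hi
    obtain ⟨_, c, _, h3⟩ := h
    obtain ⟨V', hV', h4⟩ := h3 (c i) (Finset.mem_image_of_mem _ hi)
    have h5 := ih h4 i (by rw [Finset.mem_filter]; exact ⟨hi, rfl⟩)
    exact h5.trans (cthickening_subset_of_subset _ (fun x hx => hV' hx))

/-- The weak type estimate for layered families. -/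
def Bd (n d : ℕ) (K : ℝ) (b r : ℕ) (θ C : ℝ) : Prop :=
  ∀ (ι : Type) (a e : ι → E n) (s : Finset ι) (V : AffineSubspace ℝ (E n)) (δ D lam : ℝ),
    0 < δ → δ ≤ 1 → 1 ≤ D → (∀ i ∈ s, ‖e i‖ = 1) →
    (∀ i ∈ s, ∀ j ∈ s, i ≠ j → δ ≤ ‖e i - e j‖) →
    Lay K D δ (fun i => tube δ (a i) (e i)) b r V s → 1 ≤ lam → lam ≤ s.card →
    volume.real {x | lam ≤ (cnt (fun i => tube δ (a i) (e i)) s x : ℝ)} ^ (b + r + 1) *
      lam ^ (b + r + 2) ≤
      C * (δ ^ d * s.card) ^ (b + r + 1) * D ^ r * (D ^ r * (s.card : ℝ) / lam) ^ θ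

end Pool.Agent.Zk61.KR
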