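import Pool.Agent.Zk61.KR.Lq

set_option autoImplicit false

/-!
# Tubes in `ℝ³` with few tubes near each plane
-/

open MeasureTheory Set Metric
open scoped ENNReal

namespace Pool.Agent.Zk61.KR
open Pool.Agent.Zk61.KP (E tube cnt measurableSet_tube exists_pow Cc Cc_pos count_le harm_sum_all
  exists_unit_perp vol_tube measurable_cnt)
open Pool.Agent.TH705.RR (sn sn_nonneg sn_le_one perp_norm)
open Pool.Agent.Y254 (Cv Cv_pos vol_inter tube_diff dirn dirn_norm dirn_inner)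

/-- A maximal separated subset. -/
theorem exists_net {ι : Type} (s : Finset ι) (v : ι → E 3) {w : ℝ} (hw : 0 < w) :
    ∃ t ⊆ s, (∀ i ∈ t, ∀ j ∈ t, i ≠ j → w ≤ ‖v i - v j‖) ∧
      ∀ i ∈ s, ∃ g ∈ t, ‖v i - v g‖ ≤ w := by
  classical
  set P : Finset ι → Prop := fun t => ∀ i ∈ t, ∀ j ∈ t, i ≠ j → w ≤ ‖v i - v j‖ with hP
  obtain ⟨t, ht, hmax⟩ := Finset.exists_max_image (s.powerset.filter P) Finset.card
    ⟨∅, by simp [hP]⟩
  simp only [Finset.mem_filter, Finset.mem_powerset] at ht hmax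
  refine ⟨t, ht.1, ht.2, ?_⟩
  intro i hi
  by_contra hcon
  push Not at hcon
  have hit : i ∉ t := by
    intro h
    have := hcon i h
    rw [sub_self, norm_zero] at this
    linarith
  have h1 := hmax (insert i t) ⟨Finset.insert_subset hi ht.1, by
    intro j hj k hk hjk
    rw [Finset.mem_insert] at hj hk
    rcases hj with rfl | hj <;> rcases hk with rfl | hk
    · exact absurd rfl hjk
    · exact (hcon k hk).le
    · rw [norm_sub_rev]; exact (hcon j hj).le
    · exact ht.2 j hj k hk hjk⟩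
  rw [Finset.card_insert_of_notMem hit] at h1
  omega

theorem finrank_pair {e g : E 3} (he : ‖e‖ = 1) (hg : ‖g‖ = 1) (h : inner ℝ e g = 0) :
    Module.finrank ℝ (Submodule.span ℝ (Set.range ![e, g])) = 2 := by
  have h1 : LinearIndependent ℝ ![e, g] := by
    apply Orthonormal.linearIndependent
    constructor
    · intro i; fin_cases i <;> simp [he, hg]
    · intro i j hij
      fin_cases i <;> fin_cases j <;> simp_all [real_inner_comm]
  rw [finrank_span_eq_card h1]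
  simp

/-- A tube which meets the tube of `a0`, `e0` lies near a plane through the axis of the latter. -/
theorem near_plane {δ K : ℝ} (hδ : 0 < δ) (hK : 4 ≤ K) {a0 e0 a e g x : E 3}
    {c h : ℝ} (hx0 : x ∈ tube δ a0 e0) (hx : x ∈ tube δ a e)
    (hd : ‖e - c • e0 - h • g‖ ≤ δ) :
    tube δ a e ⊆ cthickening (K * δ)
      (AffineSubspace.mk' a0 (Submodule.span ℝ (Set.range ![e0, g])) : Set (E 3)) := by
  intro y hy
  set t : ℝ := inner ℝ (y - x) e with ht
  have ht1 : |t| ≤ 1 := by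
    have h1 : t = inner ℝ (y - a) e - inner ℝ (x - a) e := by
      rw [ht, ← inner_sub_left]; congr 1; abel
    rw [h1]
    refine (abs_sub _ _).trans ?_
    have := hy.1
    have := hx.1
    linarith
  have h1 := tube_diff hx hy
  rw [← ht] at h1
  set α : ℝ := inner ℝ (x - a0) e0 with hα
  have h2 : ‖(x - a0) - α • e0‖ ≤ δ := hx0.2
  refine mem_cthickening_of_dist_le y (a0 + ((α + t * c) • e0 + (t * h) • g)) _ _ ?_ ?_
  · rw [SetLike.mem_coe, AffineSubspace.mem_mk', vsub_eq_sub, add_sub_cancel_left]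
    apply Submodule.add_mem
    · exact Submodule.smul_mem _ _ (Submodule.subset_span ⟨0, rfl⟩)
    · exact Submodule.smul_mem _ _ (Submodule.subset_span ⟨1, rfl⟩)
  · rw [dist_eq_norm]
    have h3 : y - (a0 + ((α + t * c) • e0 + (t * h) • g)) =
        ((y - x) - t • e) + ((x - a0) - α • e0) + t • (e - c • e0 - h • g) := by
      simp only [smul_sub, add_smul, smul_smul]
      abel
    rw [h3]
    refine (norm_add₃_le).trans ?_
    rw [norm_smul, Real.norm_eq_abs]
    have h4 : |t| * ‖e - c • e0 - h • g‖ ≤ 1 * δ := by gcongr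
    nlinarith

/-- The number of tubes that meet a given tube at an angle at most `φ`. -/
theorem count_plane {ι : Type} (s : Finset ι) (a e : ι → E 3) {δ K P : ℝ} (hδ : 0 < δ)
    (hK : 4 ≤ K) (hP : 0 ≤ P) (he : ∀ i ∈ s, ‖e i‖ = 1)
    {i0 : ι} (hi0 : i0 ∈ s)
    (hpl : ∀ W : AffineSubspace ℝ (E 3), Module.finrank ℝ W.direction = 2 → ∀ u ⊆ s,
      (∀ i ∈ u, tube δ (a i) (e i) ⊆ cthickening (K * δ) (W : Set (E 3))) → i0 ∈ u →
      (∀ i ∈ u, (tube δ (a i0) (e i0) ∩ tube δ (a i) (e i)).Nonempty) → (u.card : ℝ) ≤ P)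
    (s1 : Finset ι) (hs1s : s1 ⊆ s)
    (hmeet : ∀ i ∈ s1, (tube δ (a i0) (e i0) ∩ tube δ (a i) (e i)).Nonempty) {φ : ℝ} (hφ : δ ≤ φ)
    (hs1 : ∀ i ∈ s1, sn (e i0) (e i) ≤ φ) :
    (s1.card : ℝ) * δ ≤ Cc 3 * P * φ := by
  classical
  have hφ0 : 0 < φ := hδ.trans_le hφ
  have he0 := he i0 hi0
  have hmem0 : a i0 ∈ tube δ (a i0) (e i0) := by
    constructor
    · simp
    · simp [hδ.le]
  have hv : ∀ i, ∃ v : E 3, i ∈ s → ‖v‖ = 1 ∧ inner ℝ (e i0) v = 0 ∧
      e i = (inner ℝ (e i0) (e i) : ℝ) • e i0 + sn (e i0) (e i) • v := by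
    intro i
    by_cases hi : i ∈ s
    · rcases (sn_nonneg (e i0) (e i)).lt_or_eq with h | h
      · refine ⟨dirn (e i0) (e i), fun _ => ⟨dirn_norm he0 (he i hi) h, dirn_inner he0, ?_⟩⟩
        unfold dirn
        rw [smul_smul, mul_inv_cancel₀ h.ne', one_smul]
        abel
      · obtain ⟨u, _, hu1, hu2⟩ := exists_unit_perp (n := 3) (W := ⊤) (by
          rw [finrank_top, finrank_euclideanSpace_fin]; norm_num) (e i0)
        refine ⟨u, fun _ => ⟨hu1, by rw [real_inner_comm]; exact hu2, ?_⟩⟩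
        rw [← h, zero_smul, add_zero]
        have h1 := perp_norm he0 (he i hi)
        rw [← h, norm_eq_zero, sub_eq_zero] at h1
        exact h1
    · exact ⟨0, fun h => absurd h hi⟩
  choose v hv using hv
  set w : ℝ := δ / φ with hw
  have hw0 : 0 < w := by positivity
  have hw1 : w ≤ 1 := by rw [hw, div_le_one hφ0]; exact hφ
  obtain ⟨t, hts, hsep, hcov⟩ := exists_net s1 v hw0
  have horth : Orthonormal ℝ (fun _ : Unit => e i0) := by
    constructor
    · intro _; exact he0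
    · intro i j hij; exact absurd (Subsingleton.elim i j) hij
  have h1 := count_le (fun _ : Unit => e i0) horth 2 (by simp) (fun _ => w) hw0 hw1
    (fun _ => le_rfl) t v (fun i hi => (hv i (hs1s (hts hi))).1) hsep (by
      intro i hi _
      rw [(hv i (hs1s (hts hi))).2.1, abs_zero]
      exact hw0.le)
  simp only [Finset.prod_const, Finset.card_univ, Fintype.card_unit, pow_one] at h1
  have h2 : (t.card : ℝ) * w ≤ Cc 3 := by
    have h3 : (t.card : ℝ) * w * (w * w) ≤ Cc 3 * (w * w) := by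
      calc (t.card : ℝ) * w * (w * w) = (t.card : ℝ) * w ^ 3 := by ring
        _ ≤ _ := h1
    exact le_of_mul_le_mul_right h3 (by positivity)
  have h3 : s1 ⊆ t.biUnion fun g => s1.filter fun i => ‖v i - v g‖ ≤ w := by
    intro i hi
    obtain ⟨g, hg, hig⟩ := hcov i hi
    rw [Finset.mem_biUnion]
    exact ⟨g, hg, Finset.mem_filter.2 ⟨hi, hig⟩⟩
  have h4 : (s1.card : ℝ) ≤ t.card * P := by
    have h5 : (s1.card : ℝ) ≤ ∑ g ∈ t, ((s1.filter fun i => ‖v i - v g‖ ≤ w).card : ℝ) := by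
      have := (Finset.card_le_card h3).trans Finset.card_biUnion_le
      exact_mod_cast this
    refine h5.trans ?_
    rw [← nsmul_eq_mul, ← Finset.sum_const]
    apply Finset.sum_le_sum
    intro g hg
    have hgs := hs1s (hts hg)
    have h6 : ((s1.filter fun i => ‖v i - v g‖ ≤ w).card : ℝ) ≤
        (insert i0 (s1.filter fun i => ‖v i - v g‖ ≤ w)).card := by
      exact_mod_cast Finset.card_le_card (Finset.subset_insert _ _)
    refine h6.trans ?_
    apply hpl (AffineSubspace.mk' (a i0) (Submodule.span ℝ (Set.range ![e i0, v g])))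
    · rw [AffineSubspace.direction_mk']
      exact finrank_pair he0 (hv g hgs).1 (hv g hgs).2.1
    · exact Finset.insert_subset hi0 ((Finset.filter_subset _ _).trans hs1s)
    · intro i hi
      rw [Finset.mem_insert] at hi
      rcases hi with rfl | hi
      · refine near_plane hδ hK (c := 1) (h := 0) hmem0 hmem0 ?_
        simp [hδ.le]
      rw [Finset.mem_filter] at hi
      have his := hs1s hi.1
      obtain ⟨x, hx0, hx⟩ := hmeet i hi.1
      refine near_plane hδ hK (c := inner ℝ (e i0) (e i)) (h := sn (e i0) (e i)) hx0 hx ?_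
      have h6 : e i - (inner ℝ (e i0) (e i) : ℝ) • e i0 - sn (e i0) (e i) • v g =
          sn (e i0) (e i) • (v i - v g) := by
        nth_rewrite 1 [(hv i his).2.2]
        rw [smul_sub]
        abel
      rw [h6, norm_smul, Real.norm_eq_abs, abs_of_nonneg (sn_nonneg _ _)]
      have h7 : sn (e i0) (e i) ≤ φ := hs1 i hi.1
      calc sn (e i0) (e i) * ‖v i - v g‖ ≤ φ * w := by gcongr; exact hi.2
        _ = δ := mul_div_cancel₀ _ hφ0.ne'
    · exact Finset.mem_insert_self _ _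
    · intro i hi
      rw [Finset.mem_insert] at hi
      rcases hi with rfl | hi
      · exact ⟨_, hmem0, hmem0⟩
      · exact hmeet i (Finset.mem_filter.1 hi).1
  have hδw : w * φ = δ := div_mul_cancel₀ _ hφ0.ne'
  calc (s1.card : ℝ) * δ = s1.card * (w * φ) := by rw [hδw]
    _ ≤ t.card * P * (w * φ) := by gcongr
    _ = (t.card : ℝ) * w * (P * φ) := by ring
    _ ≤ Cc 3 * (P * φ) := by gcongr
    _ = _ := by ring

theorem vol_pair {δ : ℝ} (hδ : 0 < δ) {a a' e e' : E 3} (he : ‖e‖ = 1) (he' : ‖e'‖ = 1) :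
    volume (tube δ a e ∩ tube δ a' e') ≤
      ENNReal.ofReal ((4 + 6 * Cv 3) * δ ^ 2 * (δ / max δ (sn e e'))) := by
  have hC := Cv_pos 3
  rcases le_or_gt (sn e e') δ with h | h
  · rw [max_eq_left h, div_self hδ.ne', mul_one]
    refine (measure_mono inter_subset_left).trans ((vol_tube (n := 3) (m := 2) (by norm_num) hδ.le
      he).trans (ENNReal.ofReal_le_ofReal ?_))
    nlinarith [sq_nonneg δ]
  · have hs : 0 < sn e e' := hδ.trans h
    rw [max_eq_right h.le]
    refine (vol_inter (n := 3) (by norm_num) hδ he he' hs).trans (ENNReal.ofReal_le_ofReal ?_)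
    have h1 : Cv 3 * (6 * δ / sn e e') * δ ^ (3 - 1) = 6 * Cv 3 * δ ^ 2 * (δ / sn e e') := by
      ring
    rw [h1]
    gcongr
    linarith

open Classical in
/-- The row sums. -/
theorem row {ι : Type} (s : Finset ι) (a e : ι → E 3) {δ R : ℝ} (hδ : 0 < δ)
    (hR : 1 ≤ R) (he : ∀ i ∈ s, ‖e i‖ = 1) {i0 : ι} (hi0 : i0 ∈ s)
    (hc : ∀ φ, δ ≤ φ → ((s.filter fun i => (tube δ (a i0) (e i0) ∩ tube δ (a i) (e i)).Nonempty ∧
      sn (e i0) (e i) ≤ φ).card : ℝ) * δ ≤ R * φ) (J : ℕ) (hJ : (s.card : ℝ) ≤ 2 ^ J) :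
    ∑ i ∈ s, volume (tube δ (a i0) (e i0) ∩ tube δ (a i) (e i)) ≤
      ENNReal.ofReal ((4 + 6 * Cv 3) * δ ^ 2 * R * (2 + 2 * J)) := by
  have hC := Cv_pos 3
  set s0 : Finset ι := s.filter fun i => (tube δ (a i0) (e i0) ∩ tube δ (a i) (e i)).Nonempty
    with hs0
  have hs0s : s0 ⊆ s := Finset.filter_subset _ _
  have h1 : ∑ i ∈ s, volume (tube δ (a i0) (e i0) ∩ tube δ (a i) (e i)) =
      ∑ i ∈ s0, volume (tube δ (a i0) (e i0) ∩ tube δ (a i) (e i)) := by
    rw [hs0, Finset.sum_filter]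
    apply Finset.sum_congr rfl
    intro i _
    split_ifs with h
    · rfl
    · rw [Set.not_nonempty_iff_eq_empty.1 h, measure_empty]
  have h2 : ∑ i ∈ s0, δ / max δ (sn (e i0) (e i)) ≤ R * (2 + 2 * J) := by
    apply harm_sum_all s0 (fun i => sn (e i0) (e i)) hδ
    · intro φ hφ
      have := hc φ hφ
      rw [hs0, Finset.filter_filter]
      exact this
    · have h3 : (s0.card : ℝ) ≤ s.card := by exact_mod_cast Finset.card_le_card hs0s
      calc (s0.card : ℝ) ≤ 1 * 2 ^ J := by linarith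
        _ ≤ R * 2 ^ J := by gcongr
  rw [h1]
  calc ∑ i ∈ s0, volume (tube δ (a i0) (e i0) ∩ tube δ (a i) (e i))
      ≤ ∑ i ∈ s0, ENNReal.ofReal ((4 + 6 * Cv 3) * δ ^ 2 * (δ / max δ (sn (e i0) (e i)))) := by
        apply Finset.sum_le_sum
        intro i hi
        exact vol_pair hδ (he i0 hi0) (he i (hs0s hi))
    _ = ENNReal.ofReal ((4 + 6 * Cv 3) * δ ^ 2 * ∑ i ∈ s0, (δ / max δ (sn (e i0) (e i)))) := by
        rw [← ENNReal.ofReal_sum_of_nonneg, ← Finset.mul_sum]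
        intro i _
        have : 0 < max δ (sn (e i0) (e i)) := lt_max_of_lt_left hδ
        positivity
    _ ≤ _ := by
        apply ENNReal.ofReal_le_ofReal
        calc (4 + 6 * Cv 3) * δ ^ 2 * ∑ i ∈ s0, (δ / max δ (sn (e i0) (e i)))
            ≤ (4 + 6 * Cv 3) * δ ^ 2 * (R * (2 + 2 * J)) := by gcongr
          _ = _ := by ring

open Classical in
theorem cnt_ennreal {ι : Type} (T : ι → Set (E 3)) (s : Finset ι) (x : E 3) :
    (cnt T s x : ℝ≥0∞) = ∑ i ∈ s, (T i).indicator (fun _ => (1 : ℝ≥0∞)) x := by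
  unfold cnt
  rw [Finset.card_filter]
  push_cast
  apply Finset.sum_congr rfl
  intro i _
  rw [Set.indicator_apply]

open Classical in
/-- The `L^2` bound. -/
theorem l2 {ι : Type} (s : Finset ι) (a e : ι → E 3) {δ R : ℝ} (hδ : 0 < δ)
    (hR : 1 ≤ R) (he : ∀ i ∈ s, ‖e i‖ = 1)
    (hc : ∀ i0 ∈ s, ∀ φ, δ ≤ φ → ((s.filter fun i =>
      (tube δ (a i0) (e i0) ∩ tube δ (a i) (e i)).Nonempty ∧
      sn (e i0) (e i) ≤ φ).card : ℝ) * δ ≤ R * φ) (J : ℕ) (hJ : (s.card : ℝ) ≤ 2 ^ J) :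
    ∫⁻ x, (cnt (fun i => tube δ (a i) (e i)) s x : ℝ≥0∞) ^ 2 ≤
      ENNReal.ofReal (s.card * ((4 + 6 * Cv 3) * δ ^ 2 * R * (2 + 2 * J))) := by
  set T : ι → Set (E 3) := fun i => tube δ (a i) (e i) with hT
  have hTm : ∀ i, MeasurableSet (T i) := fun i => measurableSet_tube _ _ _
  have h1 : ∀ x, (cnt T s x : ℝ≥0∞) ^ 2 =
      ∑ i ∈ s, ∑ j ∈ s, (T i ∩ T j).indicator (fun _ => (1 : ℝ≥0∞)) x := by
    intro x
    rw [cnt_ennreal, sq, Finset.sum_mul_sum]
    apply Finset.sum_congr rfl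
    intro i _
    apply Finset.sum_congr rfl
    intro j _
    by_cases hi : x ∈ T i <;> by_cases hj : x ∈ T j <;> simp [hi, hj]
  simp only [h1]
  rw [lintegral_finsetSum _ fun i _ => Finset.measurable_sum _ fun j _ =>
    measurable_const.indicator ((hTm i).inter (hTm j))]
  have h2 : ∀ i ∈ s, ∫⁻ x, ∑ j ∈ s, (T i ∩ T j).indicator (fun _ => (1 : ℝ≥0∞)) x ≤
      ENNReal.ofReal ((4 + 6 * Cv 3) * δ ^ 2 * R * (2 + 2 * J)) := by
    intro i hi
    rw [lintegral_finsetSum _ fun j _ => measurable_const.indicator ((hTm i).inter (hTm j))]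
    refine le_trans (le_of_eq ?_) (row s a e hδ hR he hi (hc i hi) J hJ)
    apply Finset.sum_congr rfl
    intro j _
    rw [lintegral_indicator ((hTm i).inter (hTm j)), setLIntegral_const, one_mul]
  refine (Finset.sum_le_sum h2).trans (le_of_eq ?_)
  rw [Finset.sum_const, nsmul_eq_mul, ENNReal.ofReal_mul (Nat.cast_nonneg _),
    ENNReal.ofReal_natCast]

open Classical in
theorem int_sq {ι : Type} (s : Finset ι) (a e : ι → E 3) (δ : ℝ) :
    ∫⁻ x, (cnt (fun i => tube δ (a i) (e i)) s x : ℝ≥0∞) ^ 2 =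
      ∑ i ∈ s, ∑ j ∈ s, volume (tube δ (a i) (e i) ∩ tube δ (a j) (e j)) := by
  set T : ι → Set (E 3) := fun i => tube δ (a i) (e i) with hT
  have hTm : ∀ i, MeasurableSet (T i) := fun i => measurableSet_tube _ _ _
  have h1 : ∀ x, (cnt T s x : ℝ≥0∞) ^ 2 =
      ∑ i ∈ s, ∑ j ∈ s, (T i ∩ T j).indicator (fun _ => (1 : ℝ≥0∞)) x := by
    intro x
    rw [cnt_ennreal, sq, Finset.sum_mul_sum]
    apply Finset.sum_congr rfl
    intro i _
    apply Finset.sum_congr rfl
    intro j _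
    by_cases hi : x ∈ T i <;> by_cases hj : x ∈ T j <;> simp [hi, hj]
  simp only [h1]
  rw [lintegral_finsetSum _ fun i _ => Finset.measurable_sum _ fun j _ =>
    measurable_const.indicator ((hTm i).inter (hTm j))]
  apply Finset.sum_congr rfl
  intro i _
  rw [lintegral_finsetSum _ fun j _ => measurable_const.indicator ((hTm i).inter (hTm j))]
  apply Finset.sum_congr rfl
  intro j _
  rw [lintegral_indicator ((hTm i).inter (hTm j)), setLIntegral_const, one_mul]

open Classical in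
/-- Removal of the tubes with a small row sum, one after the other. -/
theorem peel_rows {ι : Type} (a e : ι → E 3) (δ : ℝ) (B : ℝ≥0∞)
    (Bad : ι → Finset ι → Prop) (s₀ : Finset ι)
    (hBad : ∀ r ⊆ s₀, ∀ m ∈ r, Bad m r →
      ∑ i ∈ r, volume (tube δ (a m) (e m) ∩ tube δ (a i) (e i)) ≤ B) (s : Finset ι) :
    s ⊆ s₀ → ∃ w ⊆ s, (∀ m ∈ w, ¬ Bad m w) ∧
      ∫⁻ x, (cnt (fun i => tube δ (a i) (e i)) (s \ w) x : ℝ≥0∞) ^ 2 ≤
        2 * (s \ w).card * B := by
  induction s using Finset.strongInduction with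
  | _ s ih =>
  intro hs
  by_cases h : ∀ m ∈ s, ¬ Bad m s
  · refine ⟨s, Finset.Subset.refl _, h, ?_⟩
    rw [int_sq]
    simp
  · push Not at h
    obtain ⟨m, hm, hBm⟩ := h
    obtain ⟨w, hw, hw1, hw2⟩ := ih (s.erase m) (Finset.erase_ssubset hm)
      ((Finset.erase_subset _ _).trans hs)
    have hws : w ⊆ s := hw.trans (Finset.erase_subset _ _)
    have hmw : m ∉ w := fun h => Finset.notMem_erase m s (hw h)
    set v : Finset ι := s.erase m \ w with hv
    have hmv : m ∉ v := fun h => Finset.notMem_erase m s (Finset.mem_sdiff.1 h).1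
    have hsw : s \ w = insert m v := by
      ext i
      simp only [hv, Finset.mem_sdiff, Finset.mem_insert, Finset.mem_erase]
      constructor
      · rintro ⟨h1, h2⟩
        by_cases him : i = m
        · exact Or.inl him
        · exact Or.inr ⟨⟨him, h1⟩, h2⟩
      · rintro (rfl | ⟨⟨_, h1⟩, h2⟩)
        · exact ⟨hm, hmw⟩
        · exact ⟨h1, h2⟩
    refine ⟨w, hws, hw1, ?_⟩
    rw [hsw, int_sq, Finset.card_insert_of_notMem hmv, Finset.sum_insert hmv]
    rw [int_sq] at hw2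
    have h1 : ∑ i ∈ insert m v, volume (tube δ (a m) (e m) ∩ tube δ (a i) (e i)) ≤ B := by
      refine le_trans (Finset.sum_le_sum_of_subset ?_) (hBad s hs m hm hBm)
      rw [← hsw]
      exact Finset.sdiff_subset
    have h2 : ∑ i ∈ v, ∑ j ∈ insert m v, volume (tube δ (a i) (e i) ∩ tube δ (a j) (e j)) ≤
        B + 2 * v.card * B := by
      have e1 : ∀ i ∈ v, ∑ j ∈ insert m v, volume (tube δ (a i) (e i) ∩ tube δ (a j) (e j)) =
          volume (tube δ (a m) (e m) ∩ tube δ (a i) (e i)) +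
            ∑ j ∈ v, volume (tube δ (a i) (e i) ∩ tube δ (a j) (e j)) := by
        intro i _
        rw [Finset.sum_insert hmv, Set.inter_comm]
      rw [Finset.sum_congr rfl e1, Finset.sum_add_distrib]
      refine add_le_add (le_trans (Finset.sum_le_sum_of_subset (Finset.subset_insert _ _)) h1) hw2
    refine (add_le_add h1 h2).trans (le_of_eq ?_)
    push_cast
    ring

open Classical in
theorem l1 {ι : Type} (s : Finset ι) (a e : ι → E 3) {δ : ℝ} (hδ : 0 < δ)
    (he : ∀ i ∈ s, ‖e i‖ = 1) :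
    ∫⁻ x, (cnt (fun i => tube δ (a i) (e i)) s x : ℝ≥0∞) ≤
      ENNReal.ofReal (s.card * (2 * δ) ^ 2) := by
  have hTm : ∀ i, MeasurableSet (tube δ (a i) (e i)) := fun i => measurableSet_tube _ _ _
  simp only [cnt_ennreal]
  rw [lintegral_finsetSum _ fun i _ => measurable_const.indicator (hTm i)]
  have h2 : ∀ i ∈ s, ∫⁻ x, (tube δ (a i) (e i)).indicator (fun _ => (1 : ℝ≥0∞)) x ≤
      ENNReal.ofReal ((2 * δ) ^ 2) := by
    intro i hi
    rw [lintegral_indicator (hTm i), setLIntegral_const, one_mul]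
    exact vol_tube (n := 3) (m := 2) (by norm_num) hδ.le (he i hi)
  refine (Finset.sum_le_sum h2).trans (le_of_eq ?_)
  rw [Finset.sum_const, nsmul_eq_mul, ENNReal.ofReal_mul (Nat.cast_nonneg _),
    ENNReal.ofReal_natCast]

open Classical in
/-- The `L^q` bound from the counts of the tubes which meet a given one. -/
theorem rows {q η : ℝ} (hq : 1 < q) (hq2 : q ≤ 2) (hη : 0 < η) :
    ∃ C : ℝ, 0 < C ∧ ∀ δ : ℝ, 0 < δ → ∀ R : ℝ, 1 ≤ R → ∀ (ι : Type) (s : Finset ι)
      (a e : ι → E 3), (∀ i ∈ s, ‖e i‖ = 1) →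
      (∀ i0 ∈ s, ∀ φ, δ ≤ φ → ((s.filter fun i =>
        (tube δ (a i0) (e i0) ∩ tube δ (a i) (e i)).Nonempty ∧
        sn (e i0) (e i) ≤ φ).card : ℝ) * δ ≤ R * φ) →
      ∫⁻ x, ENNReal.ofReal ((cnt (fun i => tube δ (a i) (e i)) s x : ℝ) ^ q) ≤
        ENNReal.ofReal (C * R ^ (q - 1) * δ ^ 2 * (s.card : ℝ) ^ (1 + η)) := by
  obtain ⟨C1, hC1, hJ⟩ := exists_pow (η := η) hη
  have hC := Cv_pos 3
  set B : ℝ := (4 + 6 * Cv 3) * (4 * C1) with hB
  have hB0 : 0 < B := by positivity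
  refine ⟨4 ^ (2 - q) * B ^ (q - 1), by positivity, ?_⟩
  intro δ hδ R hR ι s a e he hc
  rcases s.eq_empty_or_nonempty with hs | hs
  · subst hs
    have h1 : ∀ x, (cnt (fun i => tube δ (a i) (e i)) ∅ x : ℝ) = 0 := by
      intro x; unfold cnt; simp
    simp only [h1, Real.zero_rpow (by linarith : q ≠ 0)]
    simp
  have hN1 : (1 : ℝ) ≤ s.card := by exact_mod_cast hs.card_pos
  have hN0 : (0 : ℝ) < s.card := by linarith
  obtain ⟨J, hJ1, hJ2, hJ3⟩ := hJ s.card hN1
  have hJr : (1 : ℝ) ≤ J := by exact_mod_cast hJ1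
  have hl1 := l1 s a e hδ he
  have hl2 := l2 s a e hδ hR he hc J hJ2
  set f : E 3 → ℝ≥0∞ := fun x => (cnt (fun i => tube δ (a i) (e i)) s x : ℝ≥0∞) with hf
  have hfm : Measurable f := by
    have h1 := measurable_cnt (fun i => tube δ (a i) (e i)) (fun i => measurableSet_tube _ _ _) s
    have h2 : f = fun x => ENNReal.ofReal (cnt (fun i => tube δ (a i) (e i)) s x : ℝ) := by
      ext x; rw [hf, ENNReal.ofReal_natCast]
    rw [h2]
    exact h1.ennreal_ofReal
  have h1 := ENNReal.lintegral_mul_norm_pow_le (μ := volume) (f := f) (g := fun x => f x ^ 2)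
    hfm.aemeasurable (hfm.pow_const 2).aemeasurable (p := 2 - q) (q := q - 1) (by linarith)
    (by linarith) (by ring)
  have h2 : ∀ x, ENNReal.ofReal ((cnt (fun i => tube δ (a i) (e i)) s x : ℝ) ^ q) =
      f x ^ (2 - q) * (f x ^ 2) ^ (q - 1) := by
    intro x
    rw [← ENNReal.ofReal_rpow_of_nonneg (Nat.cast_nonneg _) (by linarith), ENNReal.ofReal_natCast]
    show f x ^ q = _
    rw [← ENNReal.rpow_natCast (f x) 2, ← ENNReal.rpow_mul,
      ← ENNReal.rpow_add_of_nonneg _ _ (by linarith) (by push_cast; linarith)]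
    congr 1
    push_cast
    ring
  simp only [h2]
  refine h1.trans ?_
  refine (mul_le_mul' (ENNReal.rpow_le_rpow hl1 (by linarith))
    (ENNReal.rpow_le_rpow hl2 (by linarith))).trans ?_
  rw [ENNReal.ofReal_rpow_of_nonneg (by positivity) (by linarith),
    ENNReal.ofReal_rpow_of_nonneg (by positivity) (by linarith),
    ← ENNReal.ofReal_mul (by positivity)]
  apply ENNReal.ofReal_le_ofReal
  have h3 : (s.card : ℝ) * ((4 + 6 * Cv 3) * δ ^ 2 * R * (2 + 2 * J)) ≤
      B * δ ^ 2 * R * (s.card : ℝ) ^ (1 + η) := by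
    rw [Real.rpow_add hN0, Real.rpow_one, hB]
    have h4 : (2 : ℝ) + 2 * J ≤ 4 * (C1 * (s.card : ℝ) ^ η) := by linarith
    calc (s.card : ℝ) * ((4 + 6 * Cv 3) * δ ^ 2 * R * (2 + 2 * J))
        ≤ (s.card : ℝ) * ((4 + 6 * Cv 3) * δ ^ 2 * R * (4 * (C1 * (s.card : ℝ) ^ η))) := by
          gcongr
      _ = _ := by ring
  have h5 : (s.card : ℝ) * (2 * δ) ^ 2 ≤ 4 * δ ^ 2 * (s.card : ℝ) ^ (1 + η) := by
    have h6 : (s.card : ℝ) ≤ (s.card : ℝ) ^ (1 + η) := by
      nth_rewrite 1 [← Real.rpow_one (s.card : ℝ)]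
      exact Real.rpow_le_rpow_of_exponent_le hN1 (by linarith)
    calc (s.card : ℝ) * (2 * δ) ^ 2 = 4 * δ ^ 2 * s.card := by ring
      _ ≤ _ := by gcongr
  have h6 : ((s.card : ℝ) * (2 * δ) ^ 2) ^ (2 - q) ≤
      (4 * δ ^ 2 * (s.card : ℝ) ^ (1 + η)) ^ (2 - q) :=
    Real.rpow_le_rpow (by positivity) h5 (by linarith)
  have h7 : ((s.card : ℝ) * ((4 + 6 * Cv 3) * δ ^ 2 * R * (2 + 2 * J))) ^ (q - 1) ≤
      (B * δ ^ 2 * R * (s.card : ℝ) ^ (1 + η)) ^ (q - 1) :=
    Real.rpow_le_rpow (by positivity) h3 (by linarith)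
  refine (mul_le_mul h6 h7 (by positivity) (by positivity)).trans (le_of_eq ?_)
  have h8 : ∀ x : ℝ, 0 < x → x ^ (2 - q) * x ^ (q - 1) = x := by
    intro x hx
    rw [← Real.rpow_add hx]
    have : 2 - q + (q - 1) = 1 := by ring
    rw [this, Real.rpow_one]
  rw [Real.mul_rpow (by positivity) (by positivity), Real.mul_rpow (by positivity) (by positivity),
    Real.mul_rpow (by positivity) (by positivity), Real.mul_rpow (by positivity) (by positivity),
    Real.mul_rpow (by positivity) (by positivity)]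
  calc 4 ^ (2 - q) * (δ ^ 2) ^ (2 - q) * ((s.card : ℝ) ^ (1 + η)) ^ (2 - q) *
        (B ^ (q - 1) * (δ ^ 2) ^ (q - 1) * R ^ (q - 1) * ((s.card : ℝ) ^ (1 + η)) ^ (q - 1))
      = 4 ^ (2 - q) * B ^ (q - 1) * R ^ (q - 1) * ((δ ^ 2) ^ (2 - q) * (δ ^ 2) ^ (q - 1)) *
        (((s.card : ℝ) ^ (1 + η)) ^ (2 - q) * ((s.card : ℝ) ^ (1 + η)) ^ (q - 1)) := by ring
    _ = _ := by rw [h8 _ (by positivity), h8 _ (by positivity)]

open Classical in
/-- **No large planar brushes.** -/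
theorem poor {q η K : ℝ} (hq : 1 < q) (hq2 : q ≤ 2) (hη : 0 < η) (hK : 4 ≤ K) :
    ∃ C : ℝ, 0 < C ∧ ∀ δ : ℝ, 0 < δ → ∀ P : ℝ, 1 ≤ P → ∀ (ι : Type) (s : Finset ι)
      (a e : ι → E 3), (∀ i ∈ s, ‖e i‖ = 1) →
      (∀ W : AffineSubspace ℝ (E 3), Module.finrank ℝ W.direction = 2 → ∀ u ⊆ s,
        (∀ i ∈ u, tube δ (a i) (e i) ⊆ cthickening (K * δ) (W : Set (E 3))) →
        (∃ m ∈ u, ∀ i ∈ u, (tube δ (a m) (e m) ∩ tube δ (a i) (e i)).Nonempty) →
          (u.card : ℝ) ≤ P) →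
      ∫⁻ x, ENNReal.ofReal ((cnt (fun i => tube δ (a i) (e i)) s x : ℝ) ^ q) ≤
        ENNReal.ofReal (C * P ^ (q - 1) * δ ^ 2 * (s.card : ℝ) ^ (1 + η)) := by
  have hC3 := Cc_pos 3
  obtain ⟨C, hC, h⟩ := rows hq hq2 hη
  refine ⟨C * (Cc 3 + 1) ^ (q - 1), by positivity, ?_⟩
  intro δ hδ P hP ι s a e he hpl
  refine (h δ hδ ((Cc 3 + 1) * P) (by nlinarith) ι s a e he ?_).trans
    (ENNReal.ofReal_le_ofReal (le_of_eq ?_))
  · intro i0 hi0 φ hφ
    have hφ0 : 0 < φ := hδ.trans_le hφ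
    refine (count_plane s a e hδ hK (by linarith) he hi0
      (fun W hW u hu hT hi0u hm => hpl W hW u hu hT ⟨i0, hi0u, hm⟩) _ (Finset.filter_subset _ _)
      (fun i hi => (Finset.mem_filter.1 hi).2.1) hφ
      (fun i hi => (Finset.mem_filter.1 hi).2.2)).trans ?_
    gcongr
    linarith
  · rw [Real.mul_rpow (by positivity) (by positivity)]
    ring

theorem inner_le_sn {e0 e u : E 3} (he0 : ‖e0‖ = 1) (he : ‖e‖ = 1) (hu : ‖u‖ = 1)
    (h : inner ℝ u e0 = 0) : |inner ℝ u e| ≤ sn e0 e := by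
  have h1 : inner ℝ u e = inner ℝ u (e - (inner ℝ e0 e : ℝ) • e0) := by
    rw [inner_sub_right, inner_smul_right, h, mul_zero, sub_zero]
  rw [h1, ← perp_norm he0 he]
  refine (abs_real_inner_le_norm _ _).trans ?_
  rw [hu, one_mul]

open Classical in
/-- **Tubes near `L` planes.** -/
theorem planes {q η K : ℝ} (hq : 1 < q) (hq2 : q ≤ 2) (hη : 0 < η) (hK : 1 ≤ K) :
    ∃ C : ℝ, 0 < C ∧ ∀ δ : ℝ, 0 < δ → δ ≤ 1 → ∀ (ι : Type) (s : Finset ι)
      (a e : ι → E 3), (∀ i ∈ s, ‖e i‖ = 1) → (∀ i ∈ s, ∀ j ∈ s, i ≠ j → δ ≤ ‖e i - e j‖) →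
      ∀ (c : ι → ℕ), (∀ l ∈ s.image c, ∃ W : AffineSubspace ℝ (E 3),
        Module.finrank ℝ W.direction = 2 ∧ ∀ i ∈ s.filter (fun i => c i = l),
          tube δ (a i) (e i) ⊆ cthickening (K * δ) (W : Set (E 3))) →
      ∫⁻ x, ENNReal.ofReal ((cnt (fun i => tube δ (a i) (e i)) s x : ℝ) ^ q) ≤
        ENNReal.ofReal (C * ((s.image c).card : ℝ) ^ (q - 1) * δ ^ 2 *
          (s.card : ℝ) ^ (1 + η)) := by
  have hC3 := Cc_pos 3
  obtain ⟨C, hC, h⟩ := rows hq hq2 hη
  set B : ℝ := Cc 3 * (2 * K) ^ 3 + 1 with hB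
  have hB0 : 1 ≤ B := by
    have : 0 ≤ Cc 3 * (2 * K) ^ 3 := by positivity
    linarith
  refine ⟨C * B ^ (q - 1), by positivity, ?_⟩
  intro δ hδ hδ1 ι s a e he hsep c hW
  rcases s.eq_empty_or_nonempty with hs | hs
  · subst hs
    have h1 : ∀ x, (cnt (fun i => tube δ (a i) (e i)) ∅ x : ℝ) = 0 := by
      intro x; unfold cnt; simp
    simp only [h1, Real.zero_rpow (by linarith : q ≠ 0)]
    simp
  have hL1 : (1 : ℝ) ≤ (s.image c).card := by exact_mod_cast (hs.image c).card_pos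
  refine (h δ hδ (B * (s.image c).card) (by nlinarith) ι s a e he ?_).trans
    (ENNReal.ofReal_le_ofReal (le_of_eq ?_))
  · intro i0 hi0 φ hφ
    have hφ0 : 0 < φ := hδ.trans_le hφ
    set s1 : Finset ι := s.filter fun i =>
      (tube δ (a i0) (e i0) ∩ tube δ (a i) (e i)).Nonempty ∧ sn (e i0) (e i) ≤ φ with hs1
    have hs1s : s1 ⊆ s := Finset.filter_subset _ _
    have h1 : (s1.card : ℝ) = ∑ l ∈ s.image c, ((s1.filter fun i => c i = l).card : ℝ) := by
      rw [Finset.card_eq_sum_card_fiberwise (f := c) (t := s.image c)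
        (fun i hi => Finset.mem_image_of_mem c (hs1s hi))]
      push_cast
      rfl
    rw [h1, Finset.sum_mul]
    have h2 : ∀ l ∈ s.image c, ((s1.filter fun i => c i = l).card : ℝ) * δ ≤ B * φ := by
      intro l hl
      obtain ⟨W, hWf, hWT⟩ := hW l hl
      obtain ⟨u, huW, hu1, hu2⟩ := exists_unit_perp (n := 3) (W := W.direction) (by omega) (e i0)
      have h3 := Pool.Agent.Zk61.KP.count_node (q := 1) (by omega)
        (s.filter fun i => c i = l) a e hδ hδ1 hK
        (fun i hi => he i (Finset.mem_filter.1 hi).1)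
        (fun i hi j hj hij => hsep i (Finset.mem_filter.1 hi).1 j (Finset.mem_filter.1 hj).1 hij)
        hWT hu1 huW hφ
      rw [pow_one] at h3
      have h4 : (s1.filter fun i => c i = l) ⊆
          ((s.filter fun i => c i = l).filter fun i => |inner ℝ u (e i)| ≤ φ) := by
        intro i hi
        rw [Finset.mem_filter] at hi
        have hi1 := Finset.mem_filter.1 hi.1
        rw [Finset.mem_filter, Finset.mem_filter]
        refine ⟨⟨hi1.1, hi.2⟩, ?_⟩
        exact (inner_le_sn (he i0 hi0) (he i hi1.1) hu1 hu2).trans hi1.2.2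
      have h5 : ((s1.filter fun i => c i = l).card : ℝ) ≤
          (((s.filter fun i => c i = l).filter fun i => |inner ℝ u (e i)| ≤ φ).card : ℝ) := by
        exact_mod_cast Finset.card_le_card h4
      calc ((s1.filter fun i => c i = l).card : ℝ) * δ ≤ _ * δ := by gcongr
        _ ≤ Cc 3 * (2 * K) ^ 3 * φ := h3
        _ ≤ B * φ := by gcongr; rw [hB]; linarith
    refine (Finset.sum_le_sum h2).trans (le_of_eq ?_)
    rw [Finset.sum_const, nsmul_eq_mul]
    ring
  · rw [Real.mul_rpow (by positivity) (by positivity)]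
    ring

end Pool.Agent.Zk61.KR
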