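import Pool.Agent.Zk61.KR.Node

set_option autoImplicit false

/-!
# Projection of tubes near a subspace to the subspace
-/

open MeasureTheory Set Metric
open scoped ENNReal

namespace Pool.Agent.Zk61.KR

open Pool.Agent.Zk61.KP (E tube cnt cnt_fiber measurable_cnt measurableSet_tube nonempty_of_finrank
  near dir_near exists_unit count_node CK CK_pos cnt_le_card finite_level real_bound
  finite_of_bound exists_pow G core_b step_a exists_scale pigeon)

/-- The first coordinates with respect to an orthonormal basis. -/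
noncomputable def pr {n j m : ℕ} (b : OrthonormalBasis (Fin j ⊕ Fin m) ℝ (E n)) :
    E n →ₗ[ℝ] E j where
  toFun x := WithLp.toLp 2 fun l => inner ℝ (b (Sum.inl l)) x
  map_add' x y := by ext l; simp [inner_add_right]
  map_smul' t x := by ext l; simp [inner_smul_right]

theorem pr_apply {n j m : ℕ} (b : OrthonormalBasis (Fin j ⊕ Fin m) ℝ (E n)) (x : E n) (l : Fin j) :
    pr b x l = inner ℝ (b (Sum.inl l)) x := rfl

theorem pr_norm_sq {n j m : ℕ} (b : OrthonormalBasis (Fin j ⊕ Fin m) ℝ (E n)) (x : E n) :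
    ‖x‖ ^ 2 = ‖pr b x‖ ^ 2 + ∑ l : Fin m, (inner ℝ (b (Sum.inr l)) x) ^ 2 := by
  rw [← b.sum_sq_norm_inner_right x, Fintype.sum_sum_type, EuclideanSpace.norm_sq_eq]
  congr 1
  apply Finset.sum_congr rfl
  intro l _
  rw [Real.norm_eq_abs, sq_abs]

theorem pr_norm_le {n j m : ℕ} (b : OrthonormalBasis (Fin j ⊕ Fin m) ℝ (E n)) (x : E n) :
    ‖pr b x‖ ≤ ‖x‖ := by
  have h1 := pr_norm_sq b x
  have h2 : 0 ≤ ∑ l : Fin m, (inner ℝ (b (Sum.inr l)) x : ℝ) ^ 2 :=
    Finset.sum_nonneg fun l _ => sq_nonneg _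
  exact le_of_pow_le_pow_left₀ two_ne_zero (norm_nonneg _) (by linarith)

theorem le_pr_norm {n j m : ℕ} (b : OrthonormalBasis (Fin j ⊕ Fin m) ℝ (E n)) {x : E n} {κ : ℝ}
    (hκ : 0 ≤ κ) (h : ∀ l, |inner ℝ (b (Sum.inr l)) x| ≤ κ) : ‖x‖ ≤ ‖pr b x‖ + m * κ := by
  have h1 := pr_norm_sq b x
  have h2 : ∑ l : Fin m, (inner ℝ (b (Sum.inr l)) x : ℝ) ^ 2 ≤ ∑ _l : Fin m, κ ^ 2 := by
    apply Finset.sum_le_sum
    intro l _
    rw [← sq_abs]
    exact pow_le_pow_left₀ (abs_nonneg _) (h l) 2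
  rw [Finset.sum_const, Finset.card_univ, Fintype.card_fin, nsmul_eq_mul] at h2
  have h3 : (m : ℝ) * κ ^ 2 ≤ (m * κ) ^ 2 := by
    rcases Nat.eq_zero_or_pos m with hm | hm
    · subst hm; simp
    · have hm1 : (1 : ℝ) ≤ m := by exact_mod_cast hm
      rw [mul_pow]
      nlinarith [sq_nonneg κ, mul_nonneg (sub_nonneg.2 hm1) (sq_nonneg κ)]
  have h4 := norm_nonneg (pr b x)
  have h5 : 0 ≤ (m : ℝ) * κ := by positivity
  apply le_of_pow_le_pow_left₀ two_ne_zero (by positivity)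
  nlinarith

theorem vol_prod {n j m : ℕ} (b : OrthonormalBasis (Fin j ⊕ Fin m) ℝ (E n)) {A : Set (E j)}
    (hA : MeasurableSet A) (lo hi : Fin m → ℝ) :
    volume {x : E n | pr b x ∈ A ∧ ∀ l, inner ℝ (b (Sum.inr l)) x ∈ Icc (lo l) (hi l)} =
      volume A * ∏ l, ENNReal.ofReal (hi l - lo l) := by
  have h1 : MeasurePreserving (fun x : E n => fun k => inner ℝ (b k) x) volume volume := by
    have h := (PiLp.volume_preserving_ofLp (Fin j ⊕ Fin m)).comp b.measurePreserving_repr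
    have he : (fun x : E n => fun k => inner ℝ (b k) x) = (WithLp.ofLp ∘ ⇑b.repr) := by
      funext x
      funext k
      exact (b.repr_apply_apply x k).symm
    rw [he]
    exact h
  have h2 := volume_measurePreserving_sumPiEquivProdPi (fun _ : Fin j ⊕ Fin m => ℝ)
  have h3 : MeasurePreserving
      (Prod.map (WithLp.toLp 2) id : (Fin j → ℝ) × (Fin m → ℝ) → E j × (Fin m → ℝ))
      (volume.prod volume) (volume.prod volume) :=
    (PiLp.volume_preserving_toLp (Fin j)).prod (MeasurePreserving.id _)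
  have h := h3.comp (h2.comp h1)
  have hset : {x : E n | pr b x ∈ A ∧ ∀ l, inner ℝ (b (Sum.inr l)) x ∈ Icc (lo l) (hi l)} =
      ((Prod.map (WithLp.toLp 2) id : (Fin j → ℝ) × (Fin m → ℝ) → E j × (Fin m → ℝ)) ∘
        ((MeasurableEquiv.sumPiEquivProdPi (fun _ : Fin j ⊕ Fin m => ℝ)) ∘
          (fun x : E n => fun k => inner ℝ (b k) x))) ⁻¹'
        (A ×ˢ Set.pi univ fun l => Icc (lo l) (hi l)) := by
    ext x
    simp only [mem_setOf_eq, mem_preimage, Set.mem_prod, Set.mem_pi, mem_univ, true_imp_iff,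
      Function.comp_apply]
    exact Iff.rfl
  rw [hset, h.measure_preimage
    (hA.prod (MeasurableSet.univ_pi fun l => measurableSet_Icc)).nullMeasurableSet,
    Measure.prod_prod, volume_pi_pi]
  simp only [Real.volume_Icc]

/-- The projection of a tube whose direction is almost in the subspace. -/
theorem pr_tube {n j m : ℕ} (b : OrthonormalBasis (Fin j ⊕ Fin m) ℝ (E n)) {δ : ℝ}
    (hδ : δ ≤ 1 / 4) {a e x : E n} (he : ‖e‖ = 1) (hpe : pr b e ≠ 0) (hx : x ∈ tube δ a e) :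
    pr b x ∈ tube δ (pr b a + (1 / 4 : ℝ) • (‖pr b e‖⁻¹ • pr b e)) (‖pr b e‖⁻¹ • pr b e) ∨
    pr b x ∈ tube δ (pr b a - (1 / 4 : ℝ) • (‖pr b e‖⁻¹ • pr b e)) (‖pr b e‖⁻¹ • pr b e) := by
  set f : E j := ‖pr b e‖⁻¹ • pr b e with hf
  have hn0 : ‖pr b e‖ ≠ 0 := norm_ne_zero_iff.2 hpe
  have hn1 : ‖pr b e‖ ≤ 1 := by rw [← he]; exact pr_norm_le b e
  have hff : inner ℝ f f = (1 : ℝ) := by
    rw [real_inner_self_eq_norm_sq, hf, norm_smul, norm_inv, norm_norm, inv_mul_cancel₀ hn0]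
    norm_num
  have hf1 : ‖f‖ = 1 := by
    rw [hf, norm_smul, norm_inv, norm_norm, inv_mul_cancel₀ hn0]
  have hpf : pr b e = ‖pr b e‖ • f := by
    rw [hf, smul_smul, mul_inv_cancel₀ hn0, one_smul]
  set t : ℝ := inner ℝ (x - a) e with ht
  set w : E n := (x - a) - t • e with hw
  have ht2 : |t| ≤ 1 / 2 := hx.1
  have hwδ : ‖w‖ ≤ δ := hx.2
  have hpw : ‖pr b w‖ ≤ δ := (pr_norm_le b w).trans hwδ
  have hz : pr b x - pr b a = (t * ‖pr b e‖) • f + pr b w := by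
    have h1 : pr b x - pr b a = pr b (t • e + w) := by
      rw [← map_sub]; congr 1; rw [hw]; abel
    rw [h1, map_add, map_smul]
    nth_rewrite 1 [hpf]
    rw [smul_smul]
  have hin : inner ℝ (pr b x - pr b a) f = t * ‖pr b e‖ + inner ℝ (pr b w) f := by
    rw [hz, inner_add_left, inner_smul_left, hff]; simp
  have hperp : ∀ σ : ℝ, ‖(pr b x - (pr b a + σ • f)) -
      (inner ℝ (pr b x - (pr b a + σ • f)) f) • f‖ ≤ δ := by
    intro σ
    have h1 : pr b x - (pr b a + σ • f) = (t * ‖pr b e‖ - σ) • f + pr b w := by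
      rw [← sub_sub, hz, sub_smul]; abel
    have h2 : inner ℝ (pr b x - (pr b a + σ • f)) f = t * ‖pr b e‖ - σ + inner ℝ (pr b w) f := by
      rw [h1, inner_add_left, inner_smul_left, hff]; simp
    rw [h2]
    have h3 : pr b x - (pr b a + σ • f) - (t * ‖pr b e‖ - σ + inner ℝ (pr b w) f) • f =
        pr b w - (inner ℝ (pr b w) f) • f := by
      rw [h1, add_smul]; abel
    rw [h3]
    have h4 : ‖pr b w - (inner ℝ (pr b w) f) • f‖ ^ 2 = ‖pr b w‖ ^ 2 - (inner ℝ (pr b w) f) ^ 2 := by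
      rw [norm_sub_sq_real, inner_smul_right, norm_smul, hf1, mul_one, Real.norm_eq_abs, sq_abs]
      ring
    refine le_trans ?_ hpw
    apply le_of_pow_le_pow_left₀ two_ne_zero (norm_nonneg _)
    rw [h4]
    nlinarith [sq_nonneg (inner ℝ (pr b w) f : ℝ)]
  have habs : |t * ‖pr b e‖ + inner ℝ (pr b w) f| ≤ 3 / 4 := by
    refine (abs_add_le _ _).trans ?_
    have h1 : |t * ‖pr b e‖| ≤ 1 / 2 := by
      rw [abs_mul, abs_norm]
      calc |t| * ‖pr b e‖ ≤ (1 / 2) * 1 := by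
            apply mul_le_mul ht2 hn1 (norm_nonneg _) (by norm_num)
        _ = 1 / 2 := by norm_num
    have h2 : |inner ℝ (pr b w) f| ≤ 1 / 4 := by
      refine (abs_real_inner_le_norm _ _).trans ?_
      rw [hf1, mul_one]
      linarith
    linarith
  have habs' := abs_le.1 habs
  have hins : ∀ σ : ℝ, inner ℝ (pr b x - (pr b a + σ • f)) f =
      (t * ‖pr b e‖ + inner ℝ (pr b w) f) - σ := by
    intro σ
    rw [← sub_sub, inner_sub_left, hin, inner_smul_left, hff]; simp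
  rcases le_total 0 (t * ‖pr b e‖ + inner ℝ (pr b w) f) with h0 | h0
  · left
    refine ⟨?_, hperp _⟩
    rw [hins]
    exact abs_le.2 ⟨by linarith, by linarith⟩
  · right
    have e1 : pr b a - (1 / 4 : ℝ) • f = pr b a + (-(1 / 4) : ℝ) • f := by
      rw [neg_smul]; abel
    rw [e1]
    refine ⟨?_, hperp _⟩
    rw [hins]
    exact abs_le.2 ⟨by linarith, by linarith⟩

/-- Colours such that points of the same colour are well separated. -/
theorem exists_color (n : ℕ) (hn : 1 ≤ n) {M : ℝ} (hM : 0 ≤ M) :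
    ∃ m : ℕ, 0 < m ∧ ∀ δ : ℝ, 0 < δ → ∃ col : E n → (Fin n → ZMod m),
      ∀ x y : E n, col x = col y → δ ≤ ‖x - y‖ → M * δ ≤ ‖x - y‖ := by
  have hnr : (1 : ℝ) ≤ n := by exact_mod_cast hn
  obtain ⟨m, hm⟩ := exists_nat_gt (M * (n + 1) + 1)
  have hm0 : 0 < m := by
    have h1 : (0 : ℝ) < m := lt_of_le_of_lt (by positivity) hm
    exact_mod_cast h1
  refine ⟨m, hm0, ?_⟩
  intro δ hδ
  set ρ : ℝ := δ / (n + 1) with hρ
  have hρ0 : 0 < ρ := by positivity
  refine ⟨fun x l => ((⌊x l / ρ⌋ : ℤ) : ZMod m), ?_⟩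
  intro x y hxy hsep
  by_cases hc : ∀ l, ⌊x l / ρ⌋ = ⌊y l / ρ⌋
  · exfalso
    have h1 : ∀ l, (x l - y l) ^ 2 ≤ ρ ^ 2 := by
      intro l
      have h2 := Int.abs_sub_lt_one_of_floor_eq_floor (hc l)
      rw [← sub_div, abs_div, abs_of_pos hρ0, div_lt_one hρ0] at h2
      rw [← sq_abs]
      exact pow_le_pow_left₀ (abs_nonneg _) h2.le 2
    have h2 : ‖x - y‖ ^ 2 ≤ n * ρ ^ 2 := by
      rw [EuclideanSpace.norm_sq_eq]
      calc ∑ l, ‖(x - y) l‖ ^ 2 ≤ ∑ _l : Fin n, ρ ^ 2 := by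
            apply Finset.sum_le_sum
            intro l _
            rw [Real.norm_eq_abs, sq_abs]
            exact h1 l
        _ = _ := by rw [Finset.sum_const, Finset.card_univ, Fintype.card_fin, nsmul_eq_mul]
    have h3 : δ ^ 2 ≤ ‖x - y‖ ^ 2 := pow_le_pow_left₀ hδ.le hsep 2
    have h4 : δ = ρ * (n + 1) := by rw [hρ]; field_simp
    have h5 : (ρ * (n + 1)) ^ 2 ≤ n * ρ ^ 2 := by
      calc (ρ * ((n : ℝ) + 1)) ^ 2 = δ ^ 2 := by rw [← h4]
        _ ≤ ‖x - y‖ ^ 2 := h3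
        _ ≤ n * ρ ^ 2 := h2
    have h6 : 0 < ρ ^ 2 := by positivity
    nlinarith
  · obtain ⟨l, hl⟩ := not_forall.1 hc
    have h1 : ((⌊x l / ρ⌋ : ℤ) : ZMod m) = ((⌊y l / ρ⌋ : ℤ) : ZMod m) := congrFun hxy l
    rw [ZMod.intCast_eq_intCast_iff_dvd_sub] at h1
    obtain ⟨k, hk⟩ := h1
    have hk0 : k ≠ 0 := by
      rintro rfl
      rw [mul_zero, sub_eq_zero] at hk
      exact hl hk.symm
    have h2 : (m : ℝ) ≤ |(⌊y l / ρ⌋ : ℝ) - (⌊x l / ρ⌋ : ℝ)| := by
      have h3 : ((⌊y l / ρ⌋ : ℤ) : ℝ) - ((⌊x l / ρ⌋ : ℤ) : ℝ) = (m : ℝ) * (k : ℝ) := by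
        exact_mod_cast hk
      rw [h3, abs_mul, Nat.abs_cast]
      have h4 : (1 : ℝ) ≤ |(k : ℝ)| := by
        exact_mod_cast Int.one_le_abs hk0
      have h5 : (0 : ℝ) ≤ m := Nat.cast_nonneg m
      nlinarith
    have h3 : |(⌊y l / ρ⌋ : ℝ) - (⌊x l / ρ⌋ : ℝ)| ≤ |y l / ρ - x l / ρ| + 1 := by
      have h4 := Int.floor_le (x l / ρ)
      have h5 := Int.lt_floor_add_one (x l / ρ)
      have h6 := Int.floor_le (y l / ρ)
      have h7 := Int.lt_floor_add_one (y l / ρ)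
      have h8 := neg_abs_le (y l / ρ - x l / ρ)
      have h9 := le_abs_self (y l / ρ - x l / ρ)
      apply abs_le.2
      constructor <;> linarith
    have h4 : |y l / ρ - x l / ρ| = |x l - y l| / ρ := by
      rw [← sub_div, abs_div, abs_of_pos hρ0, abs_sub_comm]
    have h5 : |x l - y l| ≤ ‖x - y‖ := by
      have h6 := PiLp.norm_apply_le (x - y) l
      rwa [PiLp.sub_apply, Real.norm_eq_abs] at h6
    have h6 : M * (n + 1) ≤ |x l - y l| / ρ := by
      rw [h4] at h3; linarith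
    rw [le_div_iff₀ hρ0] at h6
    have h7 : M * (n + 1) * ρ = M * δ := by rw [hρ]; field_simp
    rw [h7] at h6
    exact h6.trans h5

end Pool.Agent.Zk61.KR
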