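import Pool.Agent.Zk61.KR.Thin

set_option autoImplicit false

/-!
# Row sums for shaded tubes
-/

open MeasureTheory Set Metric
open scoped ENNReal

namespace Pool.Agent.Zk61.KR
open Pool.Agent.Zk61.KP (E tube cnt measurableSet_tube measurable_cnt)
open Pool.Agent.TH705.RR (sn sn_nonneg sn_le_one perp_norm)
open Pool.Agent.Y254 (Cv Cv_pos)

open Classical in
/-- The row sums from dyadic classes of angles, for shaded tubes; only the points of `F` count. -/
theorem row_shade {ι : Type} (s : Finset ι) (a e : ι → E 3) (Y : ι → Set (E 3)) (F : Set (E 3))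
    {δ R : ℝ} (hδ : 0 < δ) (hR : 1 ≤ R) (he : ∀ i ∈ s, ‖e i‖ = 1)
    (hY : ∀ i, Y i ⊆ tube δ (a i) (e i)) {i0 : ι} (hi0 : i0 ∈ s)
    (hc : ∀ φ, δ ≤ φ → ((s.filter fun i => (Y i0 ∩ Y i ∩ F).Nonempty ∧
      sn (e i0) (e i) ≤ φ ∧ (φ = δ ∨ φ / 2 < sn (e i0) (e i))).card : ℝ) * δ ≤ R * φ)
    (J : ℕ) (hJ : (s.card : ℝ) ≤ 2 ^ J) :
    ∑ i ∈ s, volume (Y i0 ∩ Y i ∩ F) ≤
      ENNReal.ofReal ((4 + 6 * Cv 3) * δ ^ 2 * R * (2 + 2 * J)) := by
  have hC := Cv_pos 3
  set s0 : Finset ι := s.filter fun i => (Y i0 ∩ Y i ∩ F).Nonempty with hs0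
  have hs0s : s0 ⊆ s := Finset.filter_subset _ _
  have h1 : ∑ i ∈ s, volume (Y i0 ∩ Y i ∩ F) = ∑ i ∈ s0, volume (Y i0 ∩ Y i ∩ F) := by
    rw [hs0, Finset.sum_filter]
    apply Finset.sum_congr rfl
    intro i _
    split_ifs with h
    · rfl
    · rw [Set.not_nonempty_iff_eq_empty.1 h, measure_empty]
  have h2 : ∑ i ∈ s0, δ / max δ (sn (e i0) (e i)) ≤ R * (2 + 2 * J) := by
    apply harm_class s0 (fun i => sn (e i0) (e i)) hδ hR
    · intro φ hφ
      have := hc φ hφ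
      rw [hs0, Finset.filter_filter]
      exact this
    · refine le_trans ?_ hJ
      exact_mod_cast Finset.card_le_card hs0s
  rw [h1]
  calc ∑ i ∈ s0, volume (Y i0 ∩ Y i ∩ F)
      ≤ ∑ i ∈ s0, ENNReal.ofReal ((4 + 6 * Cv 3) * δ ^ 2 * (δ / max δ (sn (e i0) (e i)))) := by
        apply Finset.sum_le_sum
        intro i hi
        have hsub : Y i0 ∩ Y i ∩ F ⊆ tube δ (a i0) (e i0) ∩ tube δ (a i) (e i) :=
          inter_subset_left.trans (inter_subset_inter (hY i0) (hY i))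
        exact (measure_mono hsub).trans (vol_pair hδ (he i0 hi0) (he i (hs0s hi)))
    _ = ENNReal.ofReal ((4 + 6 * Cv 3) * δ ^ 2 * ∑ i ∈ s0, (δ / max δ (sn (e i0) (e i)))) := by
        rw [← ENNReal.ofReal_sum_of_nonneg, ← Finset.mul_sum]
        intro i _
        have : 0 < max δ (sn (e i0) (e i)) := lt_max_of_lt_left hδ
        positivity
    _ ≤ _ := by
        apply ENNReal.ofReal_le_ofReal
        calc (4 + 6 * Cv 3) * δ ^ 2 * ∑ i ∈ s0, (δ / max δ (sn (e i0) (e i)))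
            ≤ (4 + 6 * Cv 3) * δ ^ 2 * (R * (2 + 2 * J)) := by gcongr
          _ = _ := by ring

/-- The row sum of a shaded tube with a large part in the level set. -/
theorem dense_shade {ι : Type} (T : ι → Set (E 3)) (hTm : ∀ i, MeasurableSet (T i)) {τ : ℝ}
    (w : Finset ι) (m : ι) {Λ : ℝ≥0∞}
    (h : Λ ≤ volume (T m ∩ {x | τ ≤ (cnt T w x : ℝ)})) :
    ENNReal.ofReal τ * Λ ≤ ∑ i ∈ w, volume (T m ∩ T i ∩ {x | τ ≤ (cnt T w x : ℝ)}) := by
  classical
  set F : Set (E 3) := {x | τ ≤ (cnt T w x : ℝ)} with hF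
  have hFm : MeasurableSet F := measurableSet_le measurable_const (measurable_cnt T hTm w)
  have h1 : ∑ i ∈ w, volume (T m ∩ T i ∩ F) =
      ∫⁻ x, ∑ i ∈ w, (T m ∩ T i ∩ F).indicator (fun _ => (1 : ℝ≥0∞)) x := by
    rw [lintegral_finsetSum _ fun j _ =>
      measurable_const.indicator (((hTm m).inter (hTm j)).inter hFm)]
    apply Finset.sum_congr rfl
    intro j _
    rw [lintegral_indicator (((hTm m).inter (hTm j)).inter hFm), setLIntegral_const, one_mul]
  have h2 : ∀ x, (T m ∩ F).indicator (fun _ => ENNReal.ofReal τ) x ≤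
      ∑ i ∈ w, (T m ∩ T i ∩ F).indicator (fun _ => (1 : ℝ≥0∞)) x := by
    intro x
    by_cases hx : x ∈ T m ∩ F
    · rw [Set.indicator_of_mem hx]
      have h3 : ∑ i ∈ w, (T m ∩ T i ∩ F).indicator (fun _ => (1 : ℝ≥0∞)) x =
          (cnt T w x : ℝ≥0∞) := by
        rw [cnt_ennreal]
        apply Finset.sum_congr rfl
        intro i _
        by_cases hi : x ∈ T i
        · rw [Set.indicator_of_mem hi, Set.indicator_of_mem]
          exact ⟨⟨hx.1, hi⟩, hx.2⟩
        · rw [Set.indicator_of_notMem hi, Set.indicator_of_notMem]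
          exact fun h => hi h.1.2
      rw [h3, ← ENNReal.ofReal_natCast]
      exact ENNReal.ofReal_le_ofReal hx.2
    · rw [Set.indicator_of_notMem hx]
      exact zero_le
  rw [h1]
  refine le_trans ?_ (lintegral_mono h2)
  rw [lintegral_indicator ((hTm m).inter hFm), setLIntegral_const]
  gcongr

end Pool.Agent.Zk61.KR
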