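import Pool.Agent.Zk61.KR.Node

set_option autoImplicit false

/-!
# The step from dimension `b + r + 2` to dimension `b + r + 3`: one level
-/

open MeasureTheory Set Metric
open scoped ENNReal

namespace Pool.Agent.Zk61.KR

open Pool.Agent.Zk61.KP (E tube cnt cnt_fiber measurable_cnt measurableSet_tube nonempty_of_finrank
  near dir_near exists_unit count_node CK CK_pos cnt_le_card finite_level real_bound
  finite_of_bound exists_pow G core_b step_a exists_scale pigeon)

open Classical in
theorem level {n d b r : ℕ} (hn : 1 + d = n) {K : ℝ} (hK : 1 ≤ K) {θ C : ℝ} (hθ : 0 ≤ θ)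
    (hC : 0 < C) (IH : Bd n d K b r θ C) {ι : Type} (a e : ι → E n) (s : Finset ι)
    (V : AffineSubspace ℝ (E n)) {δ D m P : ℝ} (hδ : 0 < δ) (hδ1 : δ ≤ 1) (hD : 1 ≤ D)
    (he : ∀ i ∈ s, ‖e i‖ = 1) (hsep : ∀ i ∈ s, ∀ j ∈ s, i ≠ j → δ ≤ ‖e i - e j‖)
    (hV : Module.finrank ℝ V.direction = b + r + 3) (c : ι → ℕ)
    (hc1 : ((s.image c).card : ℝ) ≤ D * δ ^ (b + r + 1) * s.card)
    (hc2 : ∀ l ∈ s.image c, ∃ V' ≤ V,
      Lay K D δ (fun i => tube δ (a i) (e i)) b r V' (s.filter fun i => c i = l))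
    (hm : 1 ≤ m) (hP : 0 < P) (J : ℕ) (hJ1 : 1 ≤ J) (hJ : 2 * (s.card : ℝ) ≤ m * P * 2 ^ J) :
    volume.real (G (fun i => tube δ (a i) (e i)) s c m P) ^ (b + r + 2) * (m * P) ^ (b + r + 3) ≤
      (δ ^ d * s.card) ^ (b + r + 2) * D ^ (r + 1) * (C * (2 ^ (d + 4) * (K + 1) * CK n K) *
        (2 * K * CK n K * (D ^ (r + 1) * s.card) / (m * P)) ^ θ * J) := by
  set T : ι → Set (E n) := fun i => tube δ (a i) (e i) with hTdef
  have hTm : ∀ i, MeasurableSet (T i) := fun i => measurableSet_tube _ _ _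
  have hm0 : 0 < m := by linarith
  have hCK := CK_pos (n := n) hK
  have hD0 : 0 < D := by linarith
  have hK0 : 0 < K := by linarith
  rcases (G T s c m P).eq_empty_or_nonempty with hG | hG
  · rw [hG, measureReal_empty, zero_pow (by omega), zero_mul]
    positivity
  -- there is a point
  obtain ⟨x0, hx0⟩ := hG
  have hx0' : P ≤ (((s.image c).filter fun l =>
        m ≤ (cnt T (s.filter fun i => c i = l) x0 : ℝ)).card : ℝ) := hx0
  have hPL : P ≤ ((s.image c).card : ℝ) := by
    refine hx0'.trans ?_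
    exact_mod_cast Finset.card_filter_le _ _
  have hN0 : (0 : ℝ) < s.card := by
    by_contra hcon
    have h1 : (s.card : ℝ) = 0 := le_antisymm (not_lt.1 hcon) (Nat.cast_nonneg _)
    rw [h1, mul_zero] at hc1
    linarith
  -- the children
  set M : ℝ := CK n K / δ ^ (b + r + 1) with hM
  have hM0 : 0 < M := by positivity
  have hch : ∀ l : ℕ, ∃ (V' : AffineSubspace ℝ (E n)) (u x1 : E n), l ∈ s.image c →
      V' ≤ V ∧ Lay K D δ T b r V' (s.filter fun i => c i = l) ∧ u ∈ V.direction ∧ ‖u‖ = 1 ∧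
      (∀ w ∈ V'.direction, inner ℝ u w = 0) ∧ x1 ∈ V' := by
    intro l
    by_cases hl : l ∈ s.image c
    · obtain ⟨V', hV', hLay⟩ := hc2 l hl
      have hfr := hLay.finrank
      obtain ⟨u, hu1, hu2, hu3⟩ := exists_unit (AffineSubspace.direction_le hV') (by omega)
      obtain ⟨x1, hx1⟩ := nonempty_of_finrank (V := V') (by omega)
      exact ⟨V', u, x1, fun _ => ⟨hV', hLay, hu1, hu2, hu3, hx1⟩⟩
    · exact ⟨V, 0, 0, fun h => absurd h hl⟩
  choose V' u x1 hch using hch
  have hTV : ∀ i ∈ s, T i ⊆ cthickening (K * δ) (V : Set (E n)) := by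
    intro i hi
    have hl : c i ∈ s.image c := Finset.mem_image_of_mem _ hi
    obtain ⟨h1, h2, _⟩ := hch (c i) hl
    have h3 := h2.subset i (by rw [Finset.mem_filter]; exact ⟨hi, rfl⟩)
    exact h3.trans (cthickening_subset_of_subset _ (fun x hx => h1 hx))
  have hcount : ∀ l ∈ s.image c, ∀ φ, δ ≤ φ →
      ((s.filter fun i => |inner ℝ (u l) (e i)| ≤ φ).card : ℝ) * δ ≤ M * φ := by
    intro l hl φ hφ
    obtain ⟨_, _, h3, h4, _⟩ := hch l hl
    have h5 := count_node (q := b + r + 2) hV s a e hδ hδ1 hK he hsep hTV h4 h3 hφ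
    rw [hM, div_mul_eq_mul_div, le_div_iff₀ (by positivity)]
    calc ((s.filter fun i => |inner ℝ (u l) (e i)| ≤ φ).card : ℝ) * δ * δ ^ (b + r + 1)
        = ((s.filter fun i => |inner ℝ (u l) (e i)| ≤ φ).card : ℝ) * δ ^ (b + r + 2) := by ring
      _ ≤ _ := h5
  -- size of the classes
  have hsize : ∀ l ∈ s.image c, ((s.filter fun i => c i = l).card : ℝ) ≤ 2 * K * M := by
    intro l hl
    obtain ⟨h1, h2, h3, h4, h5, h6⟩ := hch l hl
    have h7 : (s.filter fun i => c i = l) ⊆ s.filter fun i => |inner ℝ (u l) (e i)| ≤ 2 * K * δ := by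
      intro i hi
      have hi' := Finset.mem_filter.1 hi
      rw [Finset.mem_filter]
      refine ⟨hi'.1, ?_⟩
      have := dir_near (κ := K * δ) (by positivity) hδ.le h4 h5 ⟨x1 l, h6⟩ (he i hi'.1)
        (h2.subset i hi)
      linarith
    have h8 := hcount l hl (2 * K * δ) (by nlinarith)
    have h9 : ((s.filter fun i => c i = l).card : ℝ) ≤
        ((s.filter fun i => |inner ℝ (u l) (e i)| ≤ 2 * K * δ).card : ℝ) := by
      exact_mod_cast Finset.card_le_card h7
    have h10 : ((s.filter fun i => |inner ℝ (u l) (e i)| ≤ 2 * K * δ).card : ℝ) ≤ 2 * K * M := by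
      have : ((s.filter fun i => |inner ℝ (u l) (e i)| ≤ 2 * K * δ).card : ℝ) * δ ≤
          (2 * K * M) * δ := by linarith
      exact le_of_mul_le_mul_right this hδ
    exact h9.trans h10
  have hLM : ((s.image c).card : ℝ) * M ≤ CK n K * (D * s.card) := by
    calc ((s.image c).card : ℝ) * M ≤ (D * δ ^ (b + r + 1) * s.card) * M := by gcongr
      _ = CK n K * (D * s.card) := by rw [hM]; field_simp
  -- (B)
  have hB := core_b hn a e s c (K := K) (m := m) (P := P) (M := M) hδ hK0.le hm hP hM0 he u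
    (fun l => inner ℝ (u l) (x1 l)) (fun l hl => (hch l hl).2.2.2.1)
    (by
      intro i hi x hx
      have hl : c i ∈ s.image c := Finset.mem_image_of_mem _ hi
      obtain ⟨_, h2, _, h4, h5, h6⟩ := hch (c i) hl
      exact near (by positivity) h4 h5 h6
        (h2.subset i (by rw [Finset.mem_filter]; exact ⟨hi, rfl⟩) hx))
    hcount J hJ
  have hJr : (1 : ℝ) ≤ J := by exact_mod_cast hJ1
  have hA0 : 0 < m * P ^ 2 / 2 := by positivity
  have hBr := real_bound hA0 (by positivity) hB
  have hGfin := finite_of_bound hA0 hB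
  set v : ℝ := volume.real (G T s c m P) with hv
  have hv0 : 0 ≤ v := measureReal_nonneg
  have hB' : v * (m * P ^ 2) ≤ (2 ^ (d + 4) * (K + 1) * CK n K) * (δ ^ d * s.card) * D * J := by
    calc v * (m * P ^ 2) = 2 * (m * P ^ 2 / 2 * v) := by ring
      _ ≤ 2 * ((2 * δ) ^ d * (2 * (K + 1)) * (((s.image c).card : ℝ) * (M * (2 + 2 * J)))) := by
          gcongr
      _ = 2 * ((2 * δ) ^ d * (2 * (K + 1)) * ((((s.image c).card : ℝ) * M) * (2 + 2 * J))) := by
          ring
      _ ≤ 2 * ((2 * δ) ^ d * (2 * (K + 1)) * ((CK n K * (D * s.card)) * (4 * J))) := by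
          gcongr
          linarith
      _ = _ := by rw [mul_pow]; ring
  -- (A)
  set Z : ℝ := 2 * K * CK n K * (D ^ (r + 1) * s.card) / (m * P) with hZ
  have hZ0 : 0 < Z := by positivity
  set B : ℝ := (C * D ^ r * Z ^ θ / m ^ (b + r + 2)) ^ ((1 : ℝ) / ((b + r + 1 : ℕ) : ℝ)) with hBdef
  have hB0 : 0 ≤ B := by positivity
  have hBpow : B ^ (b + r + 1) = C * D ^ r * Z ^ θ / m ^ (b + r + 2) := by
    rw [hBdef, ← Real.rpow_natCast, ← Real.rpow_mul (by positivity)]
    rw [one_div_mul_cancel (by positivity), Real.rpow_one]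
  have hcls : ∀ l ∈ s.image c,
      volume.real {x | m ≤ (cnt T (s.filter fun i => c i = l) x : ℝ)} ≤
        δ ^ d * ((s.filter fun i => c i = l).card : ℝ) * B := by
    intro l hl
    obtain ⟨h1, h2, _⟩ := hch l hl
    rcases le_or_gt m ((s.filter fun i => c i = l).card : ℝ) with hml | hml
    · have h3 := IH ι a e (s.filter fun i => c i = l) (V' l) δ D m hδ hδ1 hD
        (fun i hi => he i (Finset.mem_filter.1 hi).1)
        (fun i hi j hj hij => hsep i (Finset.mem_filter.1 hi).1 j (Finset.mem_filter.1 hj).1 hij)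
        h2 hm hml
      have h4 : D ^ r * ((s.filter fun i => c i = l).card : ℝ) / m ≤ Z := by
        have h5 := hsize l hl
        -- `M ≤ CK D N / P`
        have h6 : M ≤ CK n K * (D * s.card) / P := by
          rw [le_div_iff₀ hP]
          calc M * P ≤ M * (s.image c).card := by gcongr
            _ = (s.image c).card * M := by ring
            _ ≤ _ := hLM
        calc D ^ r * ((s.filter fun i => c i = l).card : ℝ) / m
            ≤ D ^ r * (2 * K * (CK n K * (D * s.card) / P)) / m := by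
              gcongr
              exact h5.trans (by gcongr)
          _ = Z := by rw [hZ]; field_simp; ring
      have h5 : (D ^ r * ((s.filter fun i => c i = l).card : ℝ) / m) ^ θ ≤ Z ^ θ :=
        Real.rpow_le_rpow (by positivity) h4 hθ
      have h6 : (volume.real {x | m ≤ (cnt T (s.filter fun i => c i = l) x : ℝ)}) ^ (b + r + 1) ≤
          (δ ^ d * ((s.filter fun i => c i = l).card : ℝ) * B) ^ (b + r + 1) := by
        rw [mul_pow _ B, hBpow]
        rw [← le_div_iff₀ (by positivity)] at h3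
        refine h3.trans ?_
        calc C * (δ ^ d * ((s.filter fun i => c i = l).card : ℝ)) ^ (b + r + 1) * D ^ r *
              (D ^ r * ((s.filter fun i => c i = l).card : ℝ) / m) ^ θ / m ^ (b + r + 2)
            ≤ C * (δ ^ d * ((s.filter fun i => c i = l).card : ℝ)) ^ (b + r + 1) * D ^ r *
              Z ^ θ / m ^ (b + r + 2) := by gcongr
          _ = _ := by ring
      exact le_of_pow_le_pow_left₀ (by omega) (by positivity) h6
    · have h3 : {x | m ≤ (cnt T (s.filter fun i => c i = l) x : ℝ)} = ∅ := by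
        rw [Set.eq_empty_iff_forall_notMem]
        intro x hx
        have hx1 : m ≤ (cnt T (s.filter fun i => c i = l) x : ℝ) := hx
        have h4 : (cnt T (s.filter fun i => c i = l) x : ℝ) ≤
            ((s.filter fun i => c i = l).card : ℝ) := by exact_mod_cast cnt_le_card _ _ _
        linarith
      rw [h3, measureReal_empty]
      positivity
  have hAr : P * v ≤ δ ^ d * s.card * B := by
    have h1 := step_a T hTm s c m (P := P)
    have h2 : ∀ l ∈ s.image c, volume {x | m ≤ (cnt T (s.filter fun i => c i = l) x : ℝ)} ≤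
        ENNReal.ofReal (δ ^ d * ((s.filter fun i => c i = l).card : ℝ) * B) := by
      intro l hl
      have h3 := hcls l hl
      have h4 : volume {x | m ≤ (cnt T (s.filter fun i => c i = l) x : ℝ)} ≠ ∞ :=
        finite_level hn a e _ hδ.le (fun i hi => he i (Finset.mem_filter.1 hi).1) hm0
      rw [← ENNReal.ofReal_toReal h4]
      exact ENNReal.ofReal_le_ofReal h3
    have h3 := h1.trans (Finset.sum_le_sum h2)
    rw [← ENNReal.ofReal_sum_of_nonneg (fun l _ => by positivity)] at h3
    have h4 := real_bound hP (Finset.sum_nonneg fun l _ => by positivity) h3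
    refine h4.trans (le_of_eq ?_)
    rw [← Finset.sum_mul, ← Finset.mul_sum]
    congr 2
    rw [Finset.card_eq_sum_card_image c s]
    push_cast
    rfl
  have hA' : (P * v) ^ (b + r + 1) * m ^ (b + r + 2) ≤ (δ ^ d * s.card) ^ (b + r + 1) * (C * D ^ r * Z ^ θ) := by
    have h1 : (P * v) ^ (b + r + 1) ≤ (δ ^ d * s.card * B) ^ (b + r + 1) := by
      gcongr
    rw [mul_pow _ B, hBpow] at h1
    calc (P * v) ^ (b + r + 1) * m ^ (b + r + 2)
        ≤ ((δ ^ d * s.card) ^ (b + r + 1) * (C * D ^ r * Z ^ θ / m ^ (b + r + 2))) * m ^ (b + r + 2) := by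
          gcongr
      _ = _ := by field_simp
  calc v ^ (b + r + 2) * (m * P) ^ (b + r + 3)
      = ((P * v) ^ (b + r + 1) * m ^ (b + r + 2)) * (v * (m * P ^ 2)) := by ring
    _ ≤ ((δ ^ d * s.card) ^ (b + r + 1) * (C * D ^ r * Z ^ θ)) *
        ((2 ^ (d + 4) * (K + 1) * CK n K) * (δ ^ d * s.card) * D * J) := by
        apply mul_le_mul hA' hB' (by positivity) (by positivity)
    _ = _ := by ring

end Pool.Agent.Zk61.KR
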