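import Pool.Agent.Zk61.KR.Pl

set_option autoImplicit false

/-!
# Removal of the tubes with a small part in the level set
-/

open MeasureTheory Set Metric
open scoped ENNReal

namespace Pool.Agent.Zk61.KR
open Pool.Agent.Zk61.KP (E tube cnt measurableSet_tube measurable_cnt)
open Pool.Agent.TH705.RR (sn sn_nonneg sn_le_one perp_norm)
open Pool.Agent.Y254 (Cv Cv_pos)

open Classical in
/-- Sum over dyadic classes. -/
theorem harm_class {ι : Type} (s : Finset ι) (h : ι → ℝ) {M δ : ℝ} (hδ : 0 < δ) (hM : 1 ≤ M)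
    (hc : ∀ φ, δ ≤ φ →
      ((s.filter fun i => h i ≤ φ ∧ (φ = δ ∨ φ / 2 < h i)).card : ℝ) * δ ≤ M * φ)
    (J : ℕ) (hN : (s.card : ℝ) ≤ 2 ^ J) :
    ∑ i ∈ s, δ / max δ (h i) ≤ M * (2 + 2 * J) := by
  have hterm : ∀ j : ℕ, ∀ i, ¬ h i ≤ δ * 2 ^ j → δ / max δ (h i) ≤ 1 / 2 ^ j := by
    intro j i hi
    rw [not_le] at hi
    have h1 : δ * 2 ^ j ≤ max δ (h i) := hi.le.trans (le_max_right _ _)
    rw [div_le_div_iff₀ (lt_max_of_lt_left hδ) (by positivity), one_mul]
    exact h1
  have hstep : ∀ j : ℕ, ∑ i ∈ s.filter (fun i => h i ≤ δ * 2 ^ j), δ / max δ (h i) ≤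
      M * (1 + 2 * j) := by
    intro j
    induction j with
    | zero =>
      rw [pow_zero, mul_one]
      have h1 := hc δ le_rfl
      have h2 : (s.filter fun i => h i ≤ δ ∧ (δ = δ ∨ δ / 2 < h i)) =
          s.filter fun i => h i ≤ δ := by
        ext i; simp
      rw [h2] at h1
      have h3 : ((s.filter fun i => h i ≤ δ).card : ℝ) ≤ M := le_of_mul_le_mul_right h1 hδ
      have h4 : ∑ i ∈ s.filter (fun i => h i ≤ δ), δ / max δ (h i) =
          (s.filter fun i => h i ≤ δ).card := by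
        rw [Finset.sum_congr rfl (g := fun _ => (1 : ℝ))]
        · simp
        · intro i hi
          rw [max_eq_left (Finset.mem_filter.1 hi).2, div_self hδ.ne']
      rw [h4]
      push_cast
      linarith
    | succ j ih =>
      set φ : ℝ := δ * 2 ^ (j + 1) with hφ
      have hφδ : δ ≤ φ := by
        have : (1 : ℝ) ≤ 2 ^ (j + 1) := one_le_pow₀ (by norm_num)
        rw [hφ]
        nlinarith
      have hφ2 : φ / 2 = δ * 2 ^ j := by rw [hφ, pow_succ]; ring
      have h1 := hc φ hφδ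
      have h2 : ((s.filter fun i => h i ≤ φ ∧ (φ = δ ∨ φ / 2 < h i)).card : ℝ) ≤
          M * 2 ^ (j + 1) := by
        have h3 : ((s.filter fun i => h i ≤ φ ∧ (φ = δ ∨ φ / 2 < h i)).card : ℝ) * δ ≤
            (M * 2 ^ (j + 1)) * δ := h1.trans (le_of_eq (by rw [hφ]; ring))
        exact le_of_mul_le_mul_right h3 hδ
      have h3 : ∑ i ∈ (s.filter fun i => h i ≤ φ).filter (fun i => ¬ h i ≤ δ * 2 ^ j),
          δ / max δ (h i) ≤ 2 * M := by
        refine (Finset.sum_le_card_nsmul _ _ (1 / 2 ^ j) ?_).trans ?_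
        · intro i hi
          exact hterm j i (Finset.mem_filter.1 hi).2
        · rw [nsmul_eq_mul]
          have h4 : (((s.filter fun i => h i ≤ φ).filter
              (fun i => ¬ h i ≤ δ * 2 ^ j)).card : ℝ) ≤
              (s.filter fun i => h i ≤ φ ∧ (φ = δ ∨ φ / 2 < h i)).card := by
            have : ((s.filter fun i => h i ≤ φ).filter (fun i => ¬ h i ≤ δ * 2 ^ j)).card ≤
                (s.filter fun i => h i ≤ φ ∧ (φ = δ ∨ φ / 2 < h i)).card := by
              apply Finset.card_le_card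
              intro i hi
              rw [Finset.mem_filter, Finset.mem_filter] at hi
              rw [Finset.mem_filter, hφ2]
              exact ⟨hi.1.1, hi.1.2, Or.inr (not_le.1 hi.2)⟩
            exact_mod_cast this
          calc (((s.filter fun i => h i ≤ φ).filter (fun i => ¬ h i ≤ δ * 2 ^ j)).card : ℝ) *
                (1 / 2 ^ j) ≤ (M * 2 ^ (j + 1)) * (1 / 2 ^ j) := by
                gcongr
                exact h4.trans h2
            _ = 2 * M := by rw [pow_succ]; field_simp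
      rw [← Finset.sum_filter_add_sum_filter_not (s.filter fun i => h i ≤ φ)
        (fun i => h i ≤ δ * 2 ^ j)]
      have h5 : (s.filter fun i => h i ≤ φ).filter (fun i => h i ≤ δ * 2 ^ j) =
          s.filter fun i => h i ≤ δ * 2 ^ j := by
        ext i
        rw [Finset.mem_filter, Finset.mem_filter, Finset.mem_filter, ← hφ2]
        constructor
        · rintro ⟨⟨h1, _⟩, h2⟩
          exact ⟨h1, h2⟩
        · rintro ⟨h1, h2⟩
          exact ⟨⟨h1, by linarith⟩, h2⟩
      rw [h5]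
      push_cast
      linarith
  have h1 := hstep J
  have h2 : ∑ i ∈ s.filter (fun i => ¬ h i ≤ δ * 2 ^ J), δ / max δ (h i) ≤ M := by
    refine (Finset.sum_le_card_nsmul _ _ (1 / 2 ^ J) ?_).trans ?_
    · intro i hi
      exact hterm J i (Finset.mem_filter.1 hi).2
    · rw [nsmul_eq_mul]
      have h4 : ((s.filter (fun i => ¬ h i ≤ δ * 2 ^ J)).card : ℝ) ≤ 2 ^ J := by
        refine le_trans ?_ hN
        exact_mod_cast Finset.card_le_card (Finset.filter_subset _ _)
      calc ((s.filter (fun i => ¬ h i ≤ δ * 2 ^ J)).card : ℝ) * (1 / 2 ^ J) ≤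
            2 ^ J * (1 / 2 ^ J) := by gcongr
        _ = 1 := by field_simp
        _ ≤ M := hM
  rw [← Finset.sum_filter_add_sum_filter_not s (fun i => h i ≤ δ * 2 ^ J)]
  linarith

open Classical in
/-- The row sums from dyadic classes of angles; only the points of `F` count. -/
theorem row_class {ι : Type} (s : Finset ι) (a e : ι → E 3) (F : Set (E 3)) {δ R : ℝ} (hδ : 0 < δ)
    (hR : 1 ≤ R) (he : ∀ i ∈ s, ‖e i‖ = 1) {i0 : ι} (hi0 : i0 ∈ s)
    (hc : ∀ φ, δ ≤ φ → ((s.filter fun i =>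
      (tube δ (a i0) (e i0) ∩ tube δ (a i) (e i) ∩ F).Nonempty ∧
      sn (e i0) (e i) ≤ φ ∧ (φ = δ ∨ φ / 2 < sn (e i0) (e i))).card : ℝ) * δ ≤ R * φ)
    (J : ℕ) (hJ : (s.card : ℝ) ≤ 2 ^ J) :
    ∑ i ∈ s, volume (tube δ (a i0) (e i0) ∩ tube δ (a i) (e i) ∩ F) ≤
      ENNReal.ofReal ((4 + 6 * Cv 3) * δ ^ 2 * R * (2 + 2 * J)) := by
  have hC := Cv_pos 3
  set s0 : Finset ι := s.filter fun i =>
    (tube δ (a i0) (e i0) ∩ tube δ (a i) (e i) ∩ F).Nonempty with hs0
  have hs0s : s0 ⊆ s := Finset.filter_subset _ _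
  have h1 : ∑ i ∈ s, volume (tube δ (a i0) (e i0) ∩ tube δ (a i) (e i) ∩ F) =
      ∑ i ∈ s0, volume (tube δ (a i0) (e i0) ∩ tube δ (a i) (e i) ∩ F) := by
    rw [hs0, Finset.sum_filter]
    apply Finset.sum_congr rfl
    intro i _
    split_ifs with h
    · rfl
    · rw [Set.not_nonempty_iff_eq_empty.1 h, measure_empty]
  have h2 : ∑ i ∈ s0, δ / max δ (sn (e i0) (e i)) ≤ R * (2 + 2 * J) := by
    apply harm_class s0 (fun i => sn (e i0) (e i)) hδ hR
    · intro φ hφ
      have := hc φ hφ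
      rw [hs0, Finset.filter_filter]
      exact this
    · refine le_trans ?_ hJ
      exact_mod_cast Finset.card_le_card hs0s
  rw [h1]
  calc ∑ i ∈ s0, volume (tube δ (a i0) (e i0) ∩ tube δ (a i) (e i) ∩ F)
      ≤ ∑ i ∈ s0, ENNReal.ofReal ((4 + 6 * Cv 3) * δ ^ 2 * (δ / max δ (sn (e i0) (e i)))) := by
        apply Finset.sum_le_sum
        intro i hi
        exact (measure_mono inter_subset_left).trans (vol_pair hδ (he i0 hi0) (he i (hs0s hi)))
    _ = ENNReal.ofReal ((4 + 6 * Cv 3) * δ ^ 2 * ∑ i ∈ s0, (δ / max δ (sn (e i0) (e i)))) := by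
        rw [← ENNReal.ofReal_sum_of_nonneg, ← Finset.mul_sum]
        intro i _
        have : 0 < max δ (sn (e i0) (e i)) := lt_max_of_lt_left hδ
        positivity
    _ ≤ _ := by
        apply ENNReal.ofReal_le_ofReal
        calc (4 + 6 * Cv 3) * δ ^ 2 * ∑ i ∈ s0, (δ / max δ (sn (e i0) (e i)))
            ≤ (4 + 6 * Cv 3) * δ ^ 2 * (R * (2 + 2 * J)) := by gcongr
          _ = _ := by ring

open Classical in
/-- Removal, one after the other, of the sets with a small part in the level set. -/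
theorem peel_thin {ι : Type} (T : ι → Set (E 3)) (hT : ∀ i, MeasurableSet (T i)) {τ : ℝ}
    (hτ : 0 ≤ τ) (Λ : ℝ≥0∞) (s : Finset ι) :
    ∃ w ⊆ s, (∀ m ∈ w, Λ ≤ volume (T m ∩ {x | τ ≤ (cnt T w x : ℝ)})) ∧
      ∫⁻ x, ENNReal.ofReal ((cnt T (s \ w) x : ℝ) - τ) ≤ (s \ w).card * Λ := by
  induction s using Finset.strongInduction with
  | _ s ih =>
  by_cases h : ∀ m ∈ s, Λ ≤ volume (T m ∩ {x | τ ≤ (cnt T s x : ℝ)})
  · refine ⟨s, Finset.Subset.refl _, h, ?_⟩
    have h1 : ∀ x, ENNReal.ofReal ((cnt T (s \ s) x : ℝ) - τ) = 0 := by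
      intro x
      rw [Finset.sdiff_self]
      have h2 : cnt T ∅ x = 0 := by unfold cnt; simp
      rw [h2, ENNReal.ofReal_eq_zero]
      push_cast
      linarith
    simp only [h1, lintegral_zero]
    exact zero_le
  · push Not at h
    obtain ⟨m, hm, hBm⟩ := h
    obtain ⟨w, hw, hw1, hw2⟩ := ih (s.erase m) (Finset.erase_ssubset hm)
    have hws : w ⊆ s := hw.trans (Finset.erase_subset _ _)
    have hmw : m ∉ w := fun h => Finset.notMem_erase m s (hw h)
    set v : Finset ι := s.erase m \ w with hv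
    have hmv : m ∉ v := fun h => Finset.notMem_erase m s (Finset.mem_sdiff.1 h).1
    have hsw : s \ w = insert m v := by
      ext i
      simp only [hv, Finset.mem_sdiff, Finset.mem_insert, Finset.mem_erase]
      constructor
      · rintro ⟨h1, h2⟩
        by_cases him : i = m
        · exact Or.inl him
        · exact Or.inr ⟨⟨him, h1⟩, h2⟩
      · rintro (rfl | ⟨⟨_, h1⟩, h2⟩)
        · exact ⟨hm, hmw⟩
        · exact ⟨h1, h2⟩
    refine ⟨w, hws, hw1, ?_⟩
    rw [hsw, Finset.card_insert_of_notMem hmv]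
    have hsub : insert m v ⊆ s := by rw [← hsw]; exact Finset.sdiff_subset
    have hpt : ∀ x, ENNReal.ofReal ((cnt T (insert m v) x : ℝ) - τ) ≤
        ENNReal.ofReal ((cnt T v x : ℝ) - τ) +
          (T m ∩ {x | τ ≤ (cnt T s x : ℝ)}).indicator (fun _ => (1 : ℝ≥0∞)) x := by
      intro x
      have hle : (cnt T (insert m v) x : ℝ) ≤ cnt T s x := by
        have : cnt T (insert m v) x ≤ cnt T s x := by
          unfold cnt
          exact Finset.card_le_card (Finset.filter_subset_filter _ hsub)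
        exact_mod_cast this
      by_cases hx : x ∈ T m
      · have hc : (cnt T (insert m v) x : ℝ) = cnt T v x + 1 := by
          unfold cnt
          rw [Finset.filter_insert, if_pos hx, Finset.card_insert_of_notMem (by
            intro h; exact hmv (Finset.mem_filter.1 h).1)]
          push_cast
          rfl
        by_cases hx2 : τ ≤ (cnt T s x : ℝ)
        · have hx3 : x ∈ T m ∩ {x | τ ≤ (cnt T s x : ℝ)} := ⟨hx, hx2⟩
          rw [Set.indicator_of_mem hx3, hc, ← ENNReal.ofReal_one]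
          have h3 : (cnt T v x : ℝ) + 1 - τ = ((cnt T v x : ℝ) - τ) + 1 := by ring
          rw [h3]
          exact ENNReal.ofReal_add_le
        · rw [ENNReal.ofReal_eq_zero.2 (by linarith [not_le.1 hx2])]
          exact zero_le
      · have hc : cnt T (insert m v) x = cnt T v x := by
          unfold cnt
          rw [Finset.filter_insert, if_neg hx]
        rw [hc]
        exact le_self_add
    have hmeas : MeasurableSet (T m ∩ {x | τ ≤ (cnt T s x : ℝ)}) :=
      (hT m).inter (measurableSet_le measurable_const (measurable_cnt T hT s))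
    calc ∫⁻ x, ENNReal.ofReal ((cnt T (insert m v) x : ℝ) - τ)
        ≤ ∫⁻ x, (ENNReal.ofReal ((cnt T v x : ℝ) - τ) +
          (T m ∩ {x | τ ≤ (cnt T s x : ℝ)}).indicator (fun _ => (1 : ℝ≥0∞)) x) :=
          lintegral_mono hpt
      _ = (∫⁻ x, ENNReal.ofReal ((cnt T v x : ℝ) - τ)) +
          volume (T m ∩ {x | τ ≤ (cnt T s x : ℝ)}) := by
          rw [lintegral_add_right _ (measurable_const.indicator hmeas), lintegral_indicator hmeas,
            setLIntegral_const, one_mul]
      _ ≤ v.card * Λ + Λ := add_le_add hw2 hBm.le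
      _ = ((v.card + 1 : ℕ) : ℝ≥0∞) * Λ := by push_cast; ring

/-- The row sum of a tube with a large part in the level set. -/
theorem dense_row {ι : Type} (a e : ι → E 3) {δ τ : ℝ} (w : Finset ι) (m : ι) {Λ : ℝ≥0∞}
    (h : Λ ≤ volume (tube δ (a m) (e m) ∩
      {x | τ ≤ (cnt (fun i => tube δ (a i) (e i)) w x : ℝ)})) :
    ENNReal.ofReal τ * Λ ≤ ∑ i ∈ w, volume (tube δ (a m) (e m) ∩ tube δ (a i) (e i) ∩
      {x | τ ≤ (cnt (fun i => tube δ (a i) (e i)) w x : ℝ)}) := by
  classical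
  set T : ι → Set (E 3) := fun i => tube δ (a i) (e i) with hT
  have hTm : ∀ i, MeasurableSet (T i) := fun i => measurableSet_tube _ _ _
  set F : Set (E 3) := {x | τ ≤ (cnt T w x : ℝ)} with hF
  have hFm : MeasurableSet F := measurableSet_le measurable_const (measurable_cnt T hTm w)
  have h1 : ∑ i ∈ w, volume (T m ∩ T i ∩ F) =
      ∫⁻ x, ∑ i ∈ w, (T m ∩ T i ∩ F).indicator (fun _ => (1 : ℝ≥0∞)) x := by
    rw [lintegral_finsetSum _ fun j _ =>
      measurable_const.indicator (((hTm m).inter (hTm j)).inter hFm)]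
    apply Finset.sum_congr rfl
    intro j _
    rw [lintegral_indicator (((hTm m).inter (hTm j)).inter hFm), setLIntegral_const, one_mul]
  have h2 : ∀ x, (T m ∩ F).indicator (fun _ => ENNReal.ofReal τ) x ≤
      ∑ i ∈ w, (T m ∩ T i ∩ F).indicator (fun _ => (1 : ℝ≥0∞)) x := by
    intro x
    by_cases hx : x ∈ T m ∩ F
    · rw [Set.indicator_of_mem hx]
      have h3 : ∑ i ∈ w, (T m ∩ T i ∩ F).indicator (fun _ => (1 : ℝ≥0∞)) x =
          (cnt T w x : ℝ≥0∞) := by
        rw [cnt_ennreal]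
        apply Finset.sum_congr rfl
        intro i _
        by_cases hi : x ∈ T i
        · rw [Set.indicator_of_mem hi, Set.indicator_of_mem]
          exact ⟨⟨hx.1, hi⟩, hx.2⟩
        · rw [Set.indicator_of_notMem hi, Set.indicator_of_notMem]
          exact fun h => hi h.1.2
      rw [h3, ← ENNReal.ofReal_natCast]
      exact ENNReal.ofReal_le_ofReal hx.2
    · rw [Set.indicator_of_notMem hx]
      exact zero_le
  show ENNReal.ofReal τ * Λ ≤ ∑ i ∈ w, volume (T m ∩ T i ∩ F)
  rw [h1]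
  refine le_trans ?_ (lintegral_mono h2)
  rw [lintegral_indicator ((hTm m).inter hFm), setLIntegral_const]
  gcongr

/-- The level sets from the integral of `(cnt - τ)⁺`. -/
theorem level_thin {ι : Type} (T : ι → Set (E 3)) (hT : ∀ i, MeasurableSet (T i)) {τ : ℝ}
    (hτ : 0 < τ) (v : Finset ι) {B : ℝ≥0∞}
    (h : ∫⁻ x, ENNReal.ofReal ((cnt T v x : ℝ) - τ) ≤ B) :
    volume {x | 2 * τ ≤ (cnt T v x : ℝ)} ≤ B / ENNReal.ofReal τ := by
  have hm : Measurable fun x => ENNReal.ofReal ((cnt T v x : ℝ) - τ) :=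
    ((measurable_cnt T hT v).sub_const τ).ennreal_ofReal
  have h1 := meas_ge_le_lintegral_div (μ := volume) hm.aemeasurable
    (ε := ENNReal.ofReal τ) (by rw [ne_eq, ENNReal.ofReal_eq_zero, not_le]; exact hτ)
    ENNReal.ofReal_ne_top
  have h2 : {x | 2 * τ ≤ (cnt T v x : ℝ)} ⊆
      {x | ENNReal.ofReal τ ≤ ENNReal.ofReal ((cnt T v x : ℝ) - τ)} := by
    intro x hx
    have hx1 : 2 * τ ≤ (cnt T v x : ℝ) := hx
    exact ENNReal.ofReal_le_ofReal (by linarith)
  refine (measure_mono h2).trans (h1.trans ?_)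
  gcongr

end Pool.Agent.Zk61.KR
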